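import Pool.Agent.H54Z.FC.Lift

/-!
# The group of finite valued sections is a direct sum of countable groups; retractions
-/

set_option autoImplicit false

namespace Pool.Agent.H54Z.FC

open Pool.Agent.Helper316

section gen

variable {Ω : Type}

/-- closure operation generated by constants, unary and binary operations -/
def genF (c0 : Set Ω) (u : Ω → Set Ω) (b : Ω → Ω → Set Ω) (s : Finset Ω) : Set Ω :=
  c0 ∪ (⋃ a ∈ s, u a) ∪ (⋃ a ∈ s, ⋃ a' ∈ s, b a a')

theorem genF_countable {c0 : Set Ω} {u : Ω → Set Ω} {b : Ω → Ω → Set Ω} (h0 : c0.Countable)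
    (hu : ∀ a, (u a).Countable) (hb : ∀ a a', (b a a').Countable) (s : Finset Ω) :
    (genF c0 u b s).Countable :=
  (h0.union (Set.Countable.biUnion s.countable_toSet (fun a _ => hu a))).union
    (Set.Countable.biUnion s.countable_toSet (fun a _ =>
      Set.Countable.biUnion s.countable_toSet (fun a' _ => hb a a')))

theorem genF_closed {c0 : Set Ω} {u : Ω → Set Ω} {b : Ω → Ω → Set Ω} {M : Set Ω}
    (h : FCV.Closed (genF c0 u b) M) :
    c0 ⊆ M ∧ (∀ a ∈ M, u a ⊆ M) ∧ ∀ a ∈ M, ∀ a' ∈ M, b a a' ⊆ M := by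
  classical
  refine ⟨fun x hx => h ∅ (by simp) (Or.inl (Or.inl hx)), fun a ha x hx => ?_,
    fun a ha a' ha' x hx => ?_⟩
  · apply h {a} (by simpa using ha)
    refine Or.inl (Or.inr ?_)
    simp only [Set.mem_iUnion]
    exact ⟨a, by simp, hx⟩
  · apply h {a, a'} (by
      intro y hy
      simp only [Finset.coe_insert, Finset.coe_singleton, Set.mem_insert_iff,
        Set.mem_singleton_iff] at hy
      rcases hy with rfl | rfl
      · exact ha
      · exact ha')
    refine Or.inr ?_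
    simp only [Set.mem_iUnion]
    exact ⟨a, by simp, a', by simp, hx⟩

end gen

section abel

variable {I C : Type} [AddCommGroup C] {F : I → AddSubgroup C}

theorem exists_mod (hH : ∀ c : C, c ≠ 0 → ∃ m : ℕ, 0 < m ∧ ∀ d, c ≠ m • d) (s : Set C)
    (hs : s.Finite) : ∃ m : ℕ, 0 < m ∧ ∀ e ∈ s, ∀ d, e = m • d → e = 0 := by
  induction s, hs using Set.Finite.induction_on with
  | empty => exact ⟨1, Nat.one_pos, by simp⟩
  | @insert c s _ _ ih =>
    obtain ⟨m, hm, h⟩ := ih
    by_cases hc : c = 0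
    · refine ⟨m, hm, ?_⟩
      rintro e (rfl | he) d hd
      · exact hc
      · exact h e he d hd
    · obtain ⟨m', hm', h'⟩ := hH c hc
      refine ⟨m * m', Nat.mul_pos hm hm', ?_⟩
      rintro e (rfl | he) d hd
      · exact absurd (by rw [hd, mul_comm, mul_nsmul']) (h' (m • d))
      · exact h e he (m' • d) (by rw [hd, mul_nsmul'])

theorem VV_tors (ht : ∀ c : C, ∃ n : ℕ, 0 < n ∧ n • c = 0) (φ : VV F) :
    ∃ n : ℕ, 0 < n ∧ n • φ = 0 := by
  have h1 := fin_closure ht _ φ.2.1
  have : Finite (AddSubgroup.closure (Set.range φ.1)) := h1.to_subtype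
  refine ⟨Nat.card (AddSubgroup.closure (Set.range φ.1)), Nat.card_pos, ?_⟩
  apply Subtype.ext
  funext i
  have h2 : Nat.card (AddSubgroup.closure (Set.range φ.1)) •
      (⟨φ.1 i, AddSubgroup.subset_closure (Set.mem_range_self i)⟩ :
        AddSubgroup.closure (Set.range φ.1)) = 0 := card_nsmul_eq_zero'
  exact congrArg Subtype.val h2

theorem VV_dec (hF : ∀ i, (F i : Set C).Finite) (ht : ∀ c : C, ∃ n : ℕ, 0 < n ∧ n • c = 0)
    (hH : ∀ c : C, c ≠ 0 → ∃ m : ℕ, 0 < m ∧ ∀ d, c ≠ m • d) :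
    Dec (⊥ : AddSubgroup (VV F)) ⊤ := by
  classical
  choose π h1 h2 h3 h4 using fun k : ℕ =>
    exists_pi (k + 1) (LS F k) (SS F) (k + 1) (lev_bound hF k)
  have hOK : ∀ Y : Set C, OK F (fun k => π k Y) := fun Y =>
    ⟨fun k f i h => h1 k Y f i h, fun k f c hf i h => (h2 k Y f c hf i h).1⟩
  let P : Set C → VV F →+ VV F := fun Y => LL hF ht (hOK Y)
  have hP : ∀ Y φ i, (P Y φ).1 i = LLf F (fun k => π k Y) φ.1 i := fun _ _ _ => rfl
  have hcomp : ∀ Y Y' φ, P Y (P Y' φ) = P (Y ∩ Y') φ := by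
    intro Y Y' φ
    apply Subtype.ext
    funext i
    rw [hP, hP]
    have : (P Y' φ).1 = LLf F (fun k => π k Y') φ.1 := rfl
    rw [this, LLf_comp hF _ (hOK Y') φ.2]
    congr 1
    funext k
    ext f : 1
    exact h3 k Y Y' f
  choose m hm hm' using fun E : {E : AddSubgroup C // (E : Set C).Finite} =>
    exists_mod hH _ E.2
  let B : {E : AddSubgroup C // (E : Set C).Finite} → AddSubgroup (VV F) := fun E =>
    { carrier := {φ | ∀ i, φ.1 i ∈ E.1}
      zero_mem' := fun i => zero_mem _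
      add_mem' := fun ha hb i => add_mem (ha i) (hb i)
      neg_mem' := fun ha i => neg_mem (ha i) }
  refine decOfProj (𝒥 := {Y : Set C // Y.Countable}) (VV_tors ht) (fun Y => P Y.1) ?_ ?_ ?_
    B m hm ?_ ?_ ?_
  · intro Y Y' a
    rw [hcomp, hcomp, Set.inter_comm]
  · intro Y a
    rw [hcomp, Set.inter_self]
  · intro φ
    choose t ht' using h4
    refine ⟨⟨⋃ k : ℕ, ⋃ e ∈ Set.range φ.1,
      (t k (ind (k + 1) (((LS F k).indicator φ.1) ⁻¹' {e})) : Set C), ?_⟩, ?_⟩
    · exact Set.countable_iUnion (fun k => Set.Countable.biUnion φ.2.1.countable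
        (fun e _ => Finset.countable_toSet _))
    · apply Subtype.ext
      funext i
      rw [hP]
      apply LLf_fix hF _ φ.2
      intro k e he h0
      rw [ht' k _ _ (by
        intro c hc
        simp only [Set.mem_iUnion]
        exact ⟨k, e, he, hc⟩), cut_ind_ind h0]
  · intro E a ha b hab
    apply Subtype.ext
    funext i
    exact hm' E _ (ha i) (b.1 i) (by rw [hab]; rfl)
  · intro Y E a ha i
    rw [hP]
    exact LLf_mem _ a.2.1 _ ha i
  · intro Y
    let c : {t : Set C // t.Finite ∧ t ⊆ Y.1} → {E : AddSubgroup C // (E : Set C).Finite} :=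
      fun t => ⟨AddSubgroup.closure t.1, fin_closure ht _ t.2.1⟩
    have : Countable {t : Set C // t.Finite ∧ t ⊆ Y.1} :=
      (Set.countable_ofPred_finite_subset Y.2).to_subtype
    refine ⟨Set.range c, Set.countable_range _, fun φ => ?_⟩
    refine ⟨c ⟨Set.range φ.1 ∩ Y.1, φ.2.1.inter_of_left _, Set.inter_subset_right⟩, ⟨_, rfl⟩, ?_⟩
    intro i
    apply lift_mem _ _ _ (cut_finite φ.2.1 _)
    intro e he h0 h5
    apply AddSubgroup.subset_closure
    refine ⟨cut_range h0 he, (h2 _ Y.1 _ e (fun j _ hj => ?_) i h5).2⟩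
    have h6 := (cut_ind h0 hj).2
    show e ∈ F j
    rw [← h6]
    exact φ.2.2 j

/-- labels for the abelian part -/
inductive OmA (I C : Type) [AddCommGroup C] (F : I → AddSubgroup C) : Type
  | i : I → OmA I C F
  | c : C → OmA I C F
  | v : VV F → OmA I C F
  | p : (k : ℕ) → (I → ZMod (k + 1)) → OmA I C F

theorem thmA (hF : ∀ i, (F i : Set C).Finite) (ht : ∀ c : C, ∃ n : ℕ, 0 < n ∧ n • c = 0)
    (hH : ∀ c : C, c ≠ 0 → ∃ m : ℕ, 0 < m ∧ ∀ d, c ≠ m • d) :
    ∃ (Ω : Type) (lI : I → Ω) (lV : VV F → Ω) (F' : Finset Ω → Set Ω),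
      (∀ s, (F' s).Countable) ∧ Function.Injective lI ∧ Function.Injective lV ∧
      ∀ M, FCV.Closed F' M → lV 0 ∈ M ∧ (∀ a b, lV a ∈ M → lV b ∈ M → lV (a - b) ∈ M) ∧
        ∃ r : VV F →+ VV F, (∀ v, lV (r v) ∈ M) ∧ (∀ v, lV v ∈ M → r v = v) ∧
          ∀ v : VV F, (∀ i, lI i ∈ M → v.1 i = 0) → r v = 0 := by
  classical
  obtain ⟨D, hD1, hD2⟩ := retr_of_dec (VV_dec hF ht hH)
  have hw : ∀ (k : ℕ) (f : I → ZMod (k + 1)), ∃ t : Set I, t.Countable ∧
      ((∀ i ∈ t, f i = 0) → f = 0) := by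
    intro k f
    by_cases h : f = 0
    · exact ⟨∅, Set.countable_empty, fun _ => h⟩
    · obtain ⟨i, hi⟩ := Function.ne_iff.1 h
      exact ⟨{i}, Set.countable_singleton _, fun h' => absurd (h' i rfl) hi⟩
  choose w hw1 hw2 using hw
  let u : OmA I C F → Set (OmA I C F) := fun a =>
    match a with
    | OmA.i i => OmA.c '' (F i : Set C)
    | OmA.c _ => ∅
    | OmA.v v => OmA.v '' D v ∪ ⋃ k : ℕ, ⋃ e ∈ Set.range v.1,
        {OmA.p k (ind (k + 1) (((LS F k).indicator v.1) ⁻¹' {e}))}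
    | OmA.p k f => OmA.i '' w k f ∪
        Set.range (fun φ : ZMod (k + 1) → ZMod (k + 1) => OmA.p k (fun g => φ (f g)))
  let b : OmA I C F → OmA I C F → Set (OmA I C F) := fun a a' =>
    match a, a' with
    | OmA.v v, OmA.v v' => {OmA.v (v - v')}
    | OmA.p k f, OmA.c c => {OmA.p k ((SS F c).indicator f)}
    | OmA.p k f, OmA.p k' f' => {x | ∃ h : k' = k, x = OmA.p k (f + h ▸ f')}
    | _, _ => ∅
  have hu : ∀ a, (u a).Countable := by
    intro a
    cases a with
    | i i => exact (hF i).countable.image _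
    | c c => exact Set.countable_empty
    | v v =>
      exact ((hD1 v).image _).union (Set.countable_iUnion (fun k =>
        Set.Countable.biUnion v.2.1.countable (fun e _ => Set.countable_singleton _)))
    | p k f => exact ((hw1 k f).image _).union (Set.countable_range _)
  have hb : ∀ a a', (b a a').Countable := by
    intro a a'
    cases a <;> cases a' <;> try exact Set.countable_empty
    · exact Set.countable_singleton _
    · exact Set.countable_singleton _
    · apply Set.Subsingleton.countable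
      rintro _ ⟨h, rfl⟩ _ ⟨h', rfl⟩
      rfl
  refine ⟨OmA I C F, OmA.i, OmA.v, genF {OmA.v 0} u b,
    genF_countable (Set.countable_singleton _) hu hb, fun a b h => OmA.i.inj h,
    fun a b h => OmA.v.inj h, fun M hM => ?_⟩
  obtain ⟨c1, c2, c3⟩ := genF_closed hM
  have hv0 : OmA.v 0 ∈ M := c1 rfl
  have hvs : ∀ a b, OmA.v a ∈ M → OmA.v b ∈ M → OmA.v (a - b) ∈ M :=
    fun a b ha hb => c3 _ ha _ hb rfl
  refine ⟨hv0, hvs, ?_⟩
  let MV : AddSubgroup (VV F) := AddSubgroup.ofSub {v | OmA.v v ∈ M} ⟨0, hv0⟩ (fun a ha b hb => by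
    rw [← sub_eq_add_neg]; exact hvs a b ha hb)
  obtain ⟨r, hr1, hr2⟩ := hD2 MV (fun a ha x hx => c2 _ ha (Or.inl ⟨x, hx, rfl⟩))
  have hcomp : ∀ (k : ℕ) (f : I → ZMod (k + 1)), OmA.p k f ∈ M →
      ∀ φ : ZMod (k + 1) → ZMod (k + 1), OmA.p k (fun g => φ (f g)) ∈ M :=
    fun k f hf φ => c2 _ hf (Or.inr ⟨φ, rfl⟩)
  let E : (k : ℕ) → Submodule (ZMod (k + 1)) (I → ZMod (k + 1)) := fun k =>
    { carrier := {f | f = 0 ∨ (OmA.p k f ∈ M ∧ ∀ i, f i ≠ 0 → i ∈ LS F k)}
      zero_mem' := Or.inl rfl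
      add_mem' := by
        rintro f g (rfl | ⟨hf, hf'⟩) hg
        · rw [zero_add]; exact hg
        · rcases hg with rfl | ⟨hg, hg'⟩
          · rw [add_zero]; exact Or.inr ⟨hf, hf'⟩
          · refine Or.inr ⟨c3 _ hf _ hg ⟨rfl, rfl⟩, fun i hi => ?_⟩
            by_cases h : f i = 0
            · apply hg' i
              intro h2
              apply hi
              show f i + g i = 0
              rw [h, h2, add_zero]
            · exact hf' i h
      smul_mem' := by
        rintro c f (rfl | ⟨hf, hf'⟩)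
        · rw [smul_zero]; exact Or.inl rfl
        · refine Or.inr ⟨hcomp k f hf (fun x => c * x), fun i hi => hf' i ?_⟩
          intro h
          apply hi
          show c * f i = 0
          rw [h, mul_zero] }
  have hex := fun k : ℕ => exists_ext (k + 1) (LS F k) (SS F) (k + 1) (lev_bound hF k)
    {i | OmA.i i ∈ M} {c | OmA.c c ∈ M} (E k) (by
      rintro f (rfl | ⟨hf, hf'⟩) φ h0
      · left
        funext g
        exact h0
      · refine Or.inr ⟨hcomp k f hf φ, fun i hi => hf' i ?_⟩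
        intro h
        apply hi
        show φ (f i) = 0
        rw [h, h0]) (by
      rintro f (rfl | ⟨_, hf'⟩) i hi
      · exact absurd rfl hi
      · exact hf' i hi) (by
      rintro f (rfl | ⟨hf, hf'⟩) c hc
      · left
        exact Set.indicator_zero' _
      · refine Or.inr ⟨c3 _ hf _ hc rfl, fun i hi => hf' i ?_⟩
        intro h
        apply hi
        by_cases h2 : i ∈ SS F c
        · rw [Set.indicator_of_mem h2, h]
        · rw [Set.indicator_of_notMem h2]) (by
      rintro f (rfl | ⟨hf, _⟩) h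
      · rfl
      · exact hw2 k f (fun i hi => h i (c2 _ hf (Or.inl ⟨i, hi, rfl⟩)))) (by
      intro i hi _ c hc
      exact c2 _ hi ⟨c, hc, rfl⟩)
  choose x x1 x2 x3 x4 using hex
  have hOK : OK F x := ⟨x1, x2⟩
  refine ⟨r.comp (LL hF ht hOK), fun v => hr1 _, fun v hv => ?_, fun v hv => ?_⟩
  · have h1 : LL hF ht hOK v = v := by
      apply Subtype.ext
      funext i
      rw [LL_apply]
      apply LLf_fix hF _ v.2
      intro k e he h0
      rw [x3 k _, cut_ind_ind h0]
      rw [cut_ind_ind h0]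
      refine Or.inr ⟨c2 _ hv (Or.inr ?_), fun j hj => (cut_ind h0 hj).1⟩
      simp only [Set.mem_iUnion]
      exact ⟨k, e, he, rfl⟩
    show r (LL hF ht hOK v) = v
    rw [h1]
    exact hr2 v hv
  · have h1 : LL hF ht hOK v = 0 := by
      apply Subtype.ext
      funext i
      rw [LL_apply]
      have h2 := lift_mem (lev F i + 1) (x (lev F i)) _ (cut_finite v.2.1 (LS F (lev F i))) ⊥ i
        (fun e _ h0 h3 => by
          exfalso
          apply h3
          rw [x4 _ _ (fun j hj => ?_)]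
          · rfl
          · by_contra h4
            have h5 := (cut_ind h0 h4).2
            rw [hv j hj] at h5
            exact h0 h5.symm)
      exact AddSubgroup.mem_bot.1 h2
    show r (LL hF ht hOK v) = 0
    rw [h1, map_zero]

end abel

end Pool.Agent.H54Z.FC
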