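import Pool.Agent.H54Z.FC.Proj
import Pool.Agent.Helper316.FCX

/-!
# Direct decompositions into countable summands
-/

set_option autoImplicit false

namespace Pool.Agent.H54Z.FC

open Pool.Agent.Helper316

section dec

variable {A : Type} [AddCommGroup A]

/-- admissible families of components -/
def Adm (𝒦 : Set (AddSubgroup A)) : AddSubgroup (AddSubgroup A →₀ A) where
  carrier := {x | ∀ K, x K ∈ K ∧ (K ∉ 𝒦 → x K = 0)}
  zero_mem' := fun K => ⟨zero_mem _, fun _ => rfl⟩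
  add_mem' := by
    intro a b ha hb K
    refine ⟨add_mem (ha K).1 (hb K).1, fun h => ?_⟩
    show a K + b K = 0
    rw [(ha K).2 h, (hb K).2 h, add_zero]
  neg_mem' := by
    intro a ha K
    refine ⟨neg_mem (ha K).1, fun h => ?_⟩
    show - a K = 0
    rw [(ha K).2 h, neg_zero]

/-- the sum of a family of subgroups -/
noncomputable def FS (𝒦 : Set (AddSubgroup A)) : AddSubgroup A := (Adm 𝒦).map sg

/-- independence over `N` -/
def Ind (N : AddSubgroup A) (𝒦 : Set (AddSubgroup A)) : Prop :=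
  ∀ x ∈ Adm 𝒦, sg x ∈ N → x = 0

/-- `N'` is the direct sum of `N` and countable groups -/
def Dec (N N' : AddSubgroup A) : Prop :=
  ∃ 𝒦 : Set (AddSubgroup A), (∀ K ∈ 𝒦, (K : Set A).Countable) ∧ Ind N 𝒦 ∧ N ⊔ FS 𝒦 = N'

theorem Adm_mono {𝒦 𝒦' : Set (AddSubgroup A)} (h : 𝒦 ⊆ 𝒦') : Adm 𝒦 ≤ Adm 𝒦' :=
  fun _ hx K => ⟨(hx K).1, fun hK => (hx K).2 (fun h' => hK (h h'))⟩

theorem FS_mono {𝒦 𝒦' : Set (AddSubgroup A)} (h : 𝒦 ⊆ 𝒦') : FS 𝒦 ≤ FS 𝒦' :=
  AddSubgroup.map_mono (Adm_mono h)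

theorem Adm_split {𝒦 𝒦' : Set (AddSubgroup A)} {x : AddSubgroup A →₀ A}
    (hx : x ∈ Adm (𝒦 ∪ 𝒦')) : ∃ y ∈ Adm 𝒦, ∃ y' ∈ Adm 𝒦', x = y + y' := by
  classical
  refine ⟨x.filter (fun K => ¬ K ∈ 𝒦'), fun K => ?_, x.filter (fun K => K ∈ 𝒦'), fun K => ?_, ?_⟩
  · rw [Finsupp.filter_apply]
    split_ifs with h
    · exact ⟨zero_mem _, fun _ => rfl⟩
    · refine ⟨(hx K).1, fun h' => (hx K).2 ?_⟩
      rintro (h2 | h2)
      · exact h' h2
      · exact h h2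
  · rw [Finsupp.filter_apply]
    split_ifs with h
    · exact ⟨(hx K).1, fun h' => absurd h h'⟩
    · exact ⟨zero_mem _, fun _ => rfl⟩
  · ext K
    rw [Finsupp.add_apply, Finsupp.filter_apply, Finsupp.filter_apply]
    by_cases h : K ∈ 𝒦' <;> simp [h]

theorem FS_union (𝒦 𝒦' : Set (AddSubgroup A)) : FS (𝒦 ∪ 𝒦') = FS 𝒦 ⊔ FS 𝒦' := by
  apply le_antisymm
  · rintro _ ⟨x, hx, rfl⟩
    obtain ⟨y, hy, y', hy', rfl⟩ := Adm_split hx
    rw [map_add]
    exact add_mem (AddSubgroup.mem_sup_left ⟨y, hy, rfl⟩) (AddSubgroup.mem_sup_right ⟨y', hy', rfl⟩)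
  · exact sup_le (FS_mono Set.subset_union_left) (FS_mono Set.subset_union_right)

theorem Ind_union {N : AddSubgroup A} {𝒦 𝒦' : Set (AddSubgroup A)} (h : Ind N 𝒦)
    (h' : Ind (N ⊔ FS 𝒦) 𝒦') : Ind N (𝒦 ∪ 𝒦') := by
  intro x hx hxN
  obtain ⟨y, hy, y', hy', rfl⟩ := Adm_split hx
  rw [map_add] at hxN
  have h1 : y' = 0 := by
    apply h' y' hy'
    have : sg y' = (sg y + sg y') - sg y := by abel
    rw [this]
    exact sub_mem (AddSubgroup.mem_sup_left hxN) (AddSubgroup.mem_sup_right ⟨y, hy, rfl⟩)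
  rw [h1, map_zero, add_zero] at hxN
  rw [h1, add_zero]
  exact h y hy hxN

theorem Adm_chain {c : Set (Set (AddSubgroup A))} (hc : IsChain (· ⊆ ·) c) (hne : c.Nonempty)
    {x : AddSubgroup A →₀ A} (hx : x ∈ Adm (⋃₀ c)) : ∃ 𝒦 ∈ c, x ∈ Adm 𝒦 := by
  have h1 : (x.support : Set (AddSubgroup A)) ⊆ ⋃₀ c := by
    intro K hK
    by_contra h
    exact (Finsupp.mem_support_iff.1 hK) ((hx K).2 h)
  obtain ⟨𝒦, h𝒦, hsub⟩ := DirectedOn.exists_mem_subset_of_finset_subset_biUnion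
    (f := fun 𝒦 : Set (AddSubgroup A) => 𝒦) hne hc.directedOn (s := x.support)
    (by rwa [← Set.sUnion_eq_biUnion])
  refine ⟨𝒦, h𝒦, fun K => ⟨(hx K).1, fun h => ?_⟩⟩
  by_contra h2
  exact h (hsub (Finsupp.mem_support_iff.2 h2))

theorem FS_empty : FS (∅ : Set (AddSubgroup A)) = ⊥ := by
  rw [eq_bot_iff]
  rintro _ ⟨x, hx, rfl⟩
  have : x = 0 := by
    ext K
    exact (hx K).2 (Set.notMem_empty _)
  rw [this, map_zero]
  exact zero_mem _

theorem le_FS {𝒦 : Set (AddSubgroup A)} {K : AddSubgroup A} (h : K ∈ 𝒦) : K ≤ FS 𝒦 := by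
  classical
  intro a ha
  refine ⟨Finsupp.single K a, fun K' => ?_, sg_single K a⟩
  by_cases h2 : K = K'
  · subst h2
    rw [Finsupp.single_eq_same]
    exact ⟨ha, fun h' => absurd h h'⟩
  · rw [Finsupp.single_eq_of_ne (Ne.symm h2)]
    exact ⟨zero_mem _, fun _ => rfl⟩

theorem Adm_single {K : AddSubgroup A} {x : AddSubgroup A →₀ A} (hx : x ∈ Adm {K}) :
    x = Finsupp.single K (x K) := by
  ext K'
  by_cases h : K = K'
  · subst h
    rw [Finsupp.single_eq_same]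
  · rw [Finsupp.single_eq_of_ne (Ne.symm h)]
    exact (hx K').2 (fun h' => h h'.symm)

theorem FS_single (K : AddSubgroup A) : FS {K} = K := by
  apply le_antisymm
  · rintro _ ⟨x, hx, rfl⟩
    rw [Adm_single hx, sg_single]
    exact (hx K).1
  · exact le_FS rfl

theorem zornDec (N0 : AddSubgroup A) (𝒢 : Set (AddSubgroup A)) (h0 : N0 ∈ 𝒢)
    (hchain : ∀ c : Set (AddSubgroup A), c ⊆ 𝒢 → IsChain (· ≤ ·) c → c.Nonempty → sSup c ∈ 𝒢) :
    ∃ N ∈ 𝒢, Dec N0 N ∧ ∀ N' ∈ 𝒢, Dec N N' → N' ≤ N := by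
  let 𝒮 : Set (Set (AddSubgroup A)) :=
    {𝒦 | (∀ K ∈ 𝒦, (K : Set A).Countable) ∧ Ind N0 𝒦 ∧ N0 ⊔ FS 𝒦 ∈ 𝒢}
  have hemp : ∅ ∈ 𝒮 := by
    refine ⟨fun K h => absurd h (Set.notMem_empty _), fun x hx _ => ?_, ?_⟩
    · ext K
      exact (hx K).2 (Set.notMem_empty _)
    · rw [FS_empty, sup_bot_eq]; exact h0
  obtain ⟨𝒦, _, hmax⟩ := zorn_subset_nonempty 𝒮 (by
    intro c hc hch hne
    refine ⟨⋃₀ c, ⟨?_, ?_, ?_⟩, fun s hs => Set.subset_sUnion_of_mem hs⟩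
    · rintro K ⟨𝒦, h𝒦, hK⟩
      exact (hc h𝒦).1 K hK
    · intro x hx hxN
      obtain ⟨𝒦, h𝒦, hx'⟩ := Adm_chain hch hne hx
      exact (hc h𝒦).2.1 x hx' hxN
    · have h1 := hchain ((fun 𝒦 => N0 ⊔ FS 𝒦) '' c) (by
        rintro _ ⟨𝒦, h𝒦, rfl⟩
        exact (hc h𝒦).2.2) (by
        rintro _ ⟨𝒦, h𝒦, rfl⟩ _ ⟨𝒦', h𝒦', rfl⟩ hne'
        rcases hch.total h𝒦 h𝒦' with h | h
        · exact Or.inl (sup_le_sup_left (FS_mono h) _)
        · exact Or.inr (sup_le_sup_left (FS_mono h) _)) (hne.image _)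
      have h2 : N0 ⊔ FS (⋃₀ c) = sSup ((fun 𝒦 => N0 ⊔ FS 𝒦) '' c) := by
        apply le_antisymm
        · apply sup_le
          · obtain ⟨𝒦, h𝒦⟩ := hne
            exact le_trans le_sup_left (le_sSup (a := N0 ⊔ FS 𝒦) ⟨𝒦, h𝒦, rfl⟩)
          · rintro _ ⟨x, hx, rfl⟩
            obtain ⟨𝒦, h𝒦, hx'⟩ := Adm_chain hch hne hx
            have h3 : sg x ∈ N0 ⊔ FS 𝒦 := AddSubgroup.mem_sup_right ⟨x, hx', rfl⟩
            have h4 : N0 ⊔ FS 𝒦 ≤ sSup ((fun 𝒦 => N0 ⊔ FS 𝒦) '' c) := le_sSup ⟨𝒦, h𝒦, rfl⟩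
            exact h4 h3
        · apply sSup_le
          rintro _ ⟨𝒦, h𝒦, rfl⟩
          exact sup_le_sup_left (FS_mono (Set.subset_sUnion_of_mem h𝒦)) _
      rw [h2]
      exact h1) ∅ hemp
  obtain ⟨h1, h2, h3⟩ := hmax.prop
  refine ⟨N0 ⊔ FS 𝒦, h3, ⟨𝒦, h1, h2, rfl⟩, ?_⟩
  rintro N' hN' ⟨𝒦', h4, h5, h6⟩
  have h7 : 𝒦 ∪ 𝒦' ∈ 𝒮 := by
    refine ⟨?_, Ind_union h2 h5, ?_⟩
    · rintro K (h | h)
      · exact h1 K h
      · exact h4 K h
    · rw [FS_union, ← sup_assoc, h6]; exact hN'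
  have h8 : 𝒦 ∪ 𝒦' ⊆ 𝒦 := hmax.le_of_ge h7 Set.subset_union_left
  rw [← h6]
  exact sup_le le_rfl (le_trans (FS_mono (fun K hK => h8 (Or.inr hK))) le_sup_right)

/-- pure subgroups which are closed in a uniform way -/
def Good {𝓔 : Type} (B : 𝓔 → AddSubgroup A) (m : 𝓔 → ℕ) (P : AddSubgroup A) : Prop :=
  FCX.Pure P ∧ ∀ E, ∀ a ∈ B E, ∀ b, a - m E • b ∈ P → a ∈ P

theorem extDec {𝓔 : Type} [Countable 𝓔] (ht : ∀ a : A, ∃ n : ℕ, 0 < n ∧ n • a = 0)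
    (B : 𝓔 → AddSubgroup A) (m : 𝓔 → ℕ) (hm : ∀ E, 0 < m E) (P T : AddSubgroup A) (hle : P ≤ T)
    (hP : Good B m P) (hT : Good B m T) (hH : ∀ x ∈ T, ∃ E, ∃ a ∈ B E, x - a ∈ P)
    (x : A) (hx : x ∈ T) :
    ∃ P' : AddSubgroup A, P ≤ P' ∧ P' ≤ T ∧ Good B m P' ∧ Dec P P' ∧ x ∈ P' := by
  classical
  have e1 : ∀ (l : A) (n : ℕ), ∃ w ∈ T, (∃ a ∈ T, n • a - l ∈ P) → n • w - l ∈ P := by
    intro l n
    by_cases h : ∃ a ∈ T, n • a - l ∈ P
    · obtain ⟨a, ha, ha'⟩ := h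
      exact ⟨a, ha, fun _ => ha'⟩
    · exact ⟨0, zero_mem _, fun h' => absurd h' h⟩
  have e2 : ∀ (l : A) (E : 𝓔), ∃ w ∈ T, (∃ a ∈ T, a ∈ B E ∧ ∃ b, a - l - m E • b ∈ P) →
      w ∈ B E ∧ ∃ b, w - l - m E • b ∈ P := by
    intro l E
    by_cases h : ∃ a ∈ T, a ∈ B E ∧ ∃ b, a - l - m E • b ∈ P
    · obtain ⟨a, ha, ha'⟩ := h
      exact ⟨a, ha, fun _ => ha'⟩
    · exact ⟨0, zero_mem _, fun h' => absurd h' h⟩
  have e3 : ∀ (l : A) (n : ℕ), ∃ w ∈ P, (∃ a ∈ P, n • a = l) → n • w = l := by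
    intro l n
    by_cases h : ∃ a ∈ P, n • a = l
    · obtain ⟨a, ha, ha'⟩ := h
      exact ⟨a, ha, fun _ => ha'⟩
    · exact ⟨0, zero_mem _, fun h' => absurd h' h⟩
  choose w1 hw1 hw1' using e1
  choose w2 hw2 hw2' using e2
  choose w3 hw3 hw3' using e3
  let F : Finset A → Set A := fun s => {0} ∪ (⋃ a ∈ s, ⋃ b ∈ s, {a - b}) ∪
    (⋃ a ∈ s, (Set.range (w1 a) ∪ Set.range (w2 a) ∪ Set.range (w3 a)))
  have hF : ∀ s, (F s).Countable := by
    intro s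
    refine ((Set.countable_singleton _).union ?_).union ?_
    · exact Set.Countable.biUnion s.countable_toSet (fun a _ =>
        Set.Countable.biUnion s.countable_toSet (fun b _ => Set.countable_singleton _))
    · exact Set.Countable.biUnion s.countable_toSet (fun a _ =>
        ((Set.countable_range _).union (Set.countable_range _)).union (Set.countable_range _))
  have hTc : FCV.Closed F (T : Set A) := by
    intro s hs y hy
    rcases hy with (hy | hy) | hy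
    · rw [Set.mem_singleton_iff.1 hy]; exact zero_mem T
    · simp only [Set.mem_iUnion, Set.mem_singleton_iff] at hy
      obtain ⟨a, ha, b, hb, rfl⟩ := hy
      exact sub_mem (hs ha) (hs hb)
    · simp only [Set.mem_iUnion] at hy
      obtain ⟨a, _, (⟨n, rfl⟩ | ⟨E, rfl⟩) | ⟨n, rfl⟩⟩ := hy
      · exact hw1 a n
      · exact hw2 a E
      · exact hle (hw3 a n)
  set L0 : Set A := FCV.cl F {x} with hL0
  have hLc : FCV.Closed F L0 := FCV.cl_closed _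
  have hLT : L0 ⊆ T := FCV.cl_min hTc (by simpa using hx)
  have hLcount : L0.Countable := by
    rw [← Cardinal.le_aleph0_iff_set_countable]
    refine (FCV.mk_cl_le hF _).trans ?_
    simp
  have hxL : x ∈ L0 := FCV.subset_cl _ rfl
  have hL_zero : (0 : A) ∈ L0 := hLc ∅ (by simp) (Or.inl (Or.inl rfl))
  have hL_sub : ∀ a ∈ L0, ∀ b ∈ L0, a - b ∈ L0 := by
    intro a ha b hb
    apply hLc {a, b} (by
      intro y hy
      simp only [Finset.coe_insert, Finset.coe_singleton, Set.mem_insert_iff,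
        Set.mem_singleton_iff] at hy
      rcases hy with rfl | rfl
      · exact ha
      · exact hb)
    refine Or.inl (Or.inr ?_)
    simp only [Set.mem_iUnion, Set.mem_singleton_iff]
    exact ⟨a, by simp, b, by simp, rfl⟩
  have hL_w : ∀ a ∈ L0, Set.range (w1 a) ∪ Set.range (w2 a) ∪ Set.range (w3 a) ⊆ L0 := by
    intro a ha y hy
    apply hLc {a} (by simpa using ha)
    refine Or.inr ?_
    simp only [Set.mem_iUnion]
    exact ⟨a, by simp, hy⟩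
  let L : AddSubgroup A := AddSubgroup.ofSub L0 ⟨0, hL_zero⟩ (fun a ha b hb => by
    rw [← sub_eq_add_neg]; exact hL_sub a ha b hb)
  have hL : ∀ a, a ∈ L ↔ a ∈ L0 := fun a => Iff.rfl
  have hLT' : L ≤ T := fun a ha => hLT ha
  have : Countable L := hLcount.to_subtype
  obtain ⟨r, hr1, hr2⟩ := FCX.split (A := L) (B := P.addSubgroupOf L) (by
    intro a
    obtain ⟨n, hn, hna⟩ := ht a.1
    exact ⟨n, hn, Subtype.ext hna⟩) (by
    intro n a ha
    obtain ⟨p, hp, hpa⟩ := hP.1 n a.1 ha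
    have h1 : w3 (n • a.1) n ∈ L0 := hL_w _ (n • a).2 (Or.inr ⟨n, rfl⟩)
    exact ⟨⟨_, h1⟩, hw3 _ _, Subtype.ext (hw3' _ _ ⟨p, hp, hpa⟩)⟩) (by
    intro a ha
    obtain ⟨E, b, hb, hab⟩ := hH a.1 (hLT' a.2)
    refine ⟨m E, hm E, fun c hc => ha ?_⟩
    have h1 : a.1 - m E • c.1 ∈ P := hc
    have h2 : b ∈ P := by
      apply hP.2 E b hb c.1
      have : b - m E • c.1 = (a.1 - m E • c.1) - (a.1 - b) := by abel
      rw [this]
      exact sub_mem h1 hab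
    have h3 : a.1 = (a.1 - b) + b := by abel
    show a.1 ∈ P
    rw [h3]
    exact add_mem hab h2)
  let K : AddSubgroup A := r.ker.map L.subtype
  have hKL : K ≤ L := by
    rintro _ ⟨a, _, rfl⟩
    exact a.2
  refine ⟨P ⊔ L, le_sup_left, sup_le hle hLT', ⟨?_, ?_⟩, ⟨{K}, ?_, ?_, ?_⟩,
    AddSubgroup.mem_sup_right hxL⟩
  · intro n a ha
    obtain ⟨p, hp, l, hl, hpl⟩ := AddSubgroup.mem_sup.1 ha
    obtain ⟨a', ha', haa⟩ := hT.1 n a (sup_le hle hLT' ha)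
    have h1 : n • w1 l n - l ∈ P := hw1' l n ⟨a', ha', by
      rw [haa, ← hpl, add_sub_cancel_right]; exact hp⟩
    have h2 : n • (a - w1 l n) ∈ P := by
      have : n • (a - w1 l n) = p - (n • w1 l n - l) := by
        rw [smul_sub, ← hpl]; abel
      rw [this]
      exact sub_mem hp h1
    obtain ⟨q, hq, hq'⟩ := hP.1 n _ h2
    refine ⟨q + w1 l n, add_mem (AddSubgroup.mem_sup_left hq)
      (AddSubgroup.mem_sup_right (hL_w l hl (Or.inl (Or.inl ⟨n, rfl⟩)))), ?_⟩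
    rw [smul_add, hq', smul_sub]; abel
  · intro E a ha b hab
    obtain ⟨p, hp, l, hl, hpl⟩ := AddSubgroup.mem_sup.1 hab
    have haT : a ∈ T := hT.2 E a ha b (sup_le hle hLT' hab)
    have h0 : a - l - m E • b = p := by
      have : a - l - m E • b = (a - m E • b) - l := by abel
      rw [this, ← hpl]; abel
    obtain ⟨h1, b', h2⟩ := hw2' l E ⟨a, haT, ha, b, by rw [h0]; exact hp⟩
    have h3 : a - w2 l E ∈ P := by
      apply hP.2 E _ (sub_mem ha h1) (b - b')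
      have : a - w2 l E - m E • (b - b') = (a - l - m E • b) - (w2 l E - l - m E • b') := by
        rw [smul_sub]; abel
      rw [this, h0]
      exact sub_mem hp h2
    have h4 : a = (a - w2 l E) + w2 l E := by abel
    rw [h4]
    exact add_mem (AddSubgroup.mem_sup_left h3)
      (AddSubgroup.mem_sup_right (hL_w l hl (Or.inl (Or.inr ⟨E, rfl⟩))))
  · intro K' hK'
    rw [Set.mem_singleton_iff.1 hK']
    exact hLcount.mono hKL
  · intro y hy hyP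
    rw [Adm_single hy, sg_single] at hyP
    obtain ⟨a, ha, hay⟩ := (hy K).1
    have h1 : a ∈ P.addSubgroupOf L := by
      show a.1 ∈ P
      have : a.1 = y K := hay
      rw [this]; exact hyP
    have h2 : a = 0 := by
      rw [← hr2 a h1]; exact ha
    rw [Adm_single hy, ← hay, h2]
    simp
  · rw [FS_single]
    apply le_antisymm (sup_le_sup_left hKL _)
    apply sup_le le_sup_left
    intro l hl
    have h1 : l = (r ⟨l, hl⟩).1 + ((⟨l, hl⟩ : L) - r ⟨l, hl⟩).1 := by simp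
    rw [h1]
    refine add_mem (AddSubgroup.mem_sup_left (hr1 _)) (AddSubgroup.mem_sup_right
      ⟨(⟨l, hl⟩ : L) - r ⟨l, hl⟩, ?_, rfl⟩)
    show r _ = 0
    rw [map_sub, hr2 _ (hr1 _), sub_self]

theorem stepDec {𝓔 : Type} [Countable 𝓔] (ht : ∀ a : A, ∃ n : ℕ, 0 < n ∧ n • a = 0)
    (B : 𝓔 → AddSubgroup A) (m : 𝓔 → ℕ) (hm : ∀ E, 0 < m E) (P T : AddSubgroup A) (hle : P ≤ T)
    (hP : Good B m P) (hT : Good B m T) (hH : ∀ x ∈ T, ∃ E, ∃ a ∈ B E, x - a ∈ P) :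
    Dec P T := by
  obtain ⟨N, ⟨h1, h2, h3⟩, h4, h5⟩ := zornDec P {Q | P ≤ Q ∧ Q ≤ T ∧ Good B m Q}
    ⟨le_rfl, hle, hP⟩ (by
    intro c hc hch hne
    have hmem : ∀ a, a ∈ sSup c ↔ ∃ Q ∈ c, a ∈ Q := fun a =>
      AddSubgroup.mem_sSup_of_directedOn hne hch.directedOn
    refine ⟨?_, sSup_le (fun Q hQ => (hc hQ).2.1), ?_, ?_⟩
    · obtain ⟨Q, hQ⟩ := hne
      exact le_trans (hc hQ).1 (le_sSup hQ)
    · intro n a ha
      obtain ⟨Q, hQ, haQ⟩ := (hmem _).1 ha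
      obtain ⟨b, hb, hb'⟩ := (hc hQ).2.2.1 n a haQ
      exact ⟨b, (hmem _).2 ⟨Q, hQ, hb⟩, hb'⟩
    · intro E a ha b hab
      obtain ⟨Q, hQ, haQ⟩ := (hmem _).1 hab
      exact (hmem _).2 ⟨Q, hQ, (hc hQ).2.2.2 E a ha b haQ⟩)
  have h6 : N = T := by
    apply le_antisymm h2
    intro x hx
    obtain ⟨P', h7, h8, h9, h10, h11⟩ := extDec ht B m hm N T h2 h3 hT (by
      intro y hy
      obtain ⟨E, a, ha, hya⟩ := hH y hy
      exact ⟨E, a, ha, h1 hya⟩) x hx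
    exact h5 P' ⟨h1.trans h7, h8, h9⟩ h10 h11
  rwa [h6] at h4

/-- products of complementary projections -/
def tau {𝒥 : Type} (π : 𝒥 → A →+ A) : List 𝒥 → A →+ A
  | [] => AddMonoidHom.id A
  | (Y :: l) => (AddMonoidHom.id A - π Y).comp (tau π l)

theorem tau_cons {𝒥 : Type} (π : 𝒥 → A →+ A) (Y : 𝒥) (l : List 𝒥) (a : A) :
    tau π (Y :: l) a = tau π l a - π Y (tau π l a) := rfl

theorem decOfProj {𝒥 𝓔 : Type} (ht : ∀ a : A, ∃ n : ℕ, 0 < n ∧ n • a = 0)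
    (π : 𝒥 → A →+ A) (hcomm : ∀ Y Y' a, π Y (π Y' a) = π Y' (π Y a))
    (hidem : ∀ Y a, π Y (π Y a) = π Y a) (hfix : ∀ a, ∃ Y, π Y a = a)
    (B : 𝓔 → AddSubgroup A) (m : 𝓔 → ℕ) (hm : ∀ E, 0 < m E)
    (hB : ∀ E, ∀ a ∈ B E, ∀ b, a = m E • b → a = 0)
    (hπB : ∀ Y E, ∀ a ∈ B E, π Y a ∈ B E)
    (hY : ∀ Y, ∃ 𝓕 : Set 𝓔, 𝓕.Countable ∧ ∀ a, ∃ E ∈ 𝓕, π Y a ∈ B E) :
    Dec (⊥ : AddSubgroup A) ⊤ := by
  let G : Set 𝒥 → AddSubgroup A := fun 𝒴 => AddSubgroup.closure {a | ∃ Y ∈ 𝒴, ∃ b, a = π Y b}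
  have hG : ∀ 𝒴, ∀ Y ∈ 𝒴, ∀ b, π Y b ∈ G 𝒴 := fun 𝒴 Y hY b =>
    AddSubgroup.subset_closure ⟨Y, hY, b, rfl⟩
  have hGmono : ∀ 𝒴 𝒴', 𝒴 ⊆ 𝒴' → G 𝒴 ≤ G 𝒴' := by
    intro 𝒴 𝒴' h
    apply AddSubgroup.closure_mono
    rintro _ ⟨Y, hY, b, rfl⟩
    exact ⟨Y, h hY, b, rfl⟩
  have t1 : ∀ l Y a, tau π l (π Y a) = π Y (tau π l a) := by
    intro l Y a
    induction l with
    | nil => rfl
    | cons Y' l ih => rw [tau_cons, tau_cons, ih, map_sub, hcomm]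
  have t2 : ∀ l Y a, Y ∈ l → tau π l (π Y a) = 0 := by
    intro l Y a h
    induction l with
    | nil => simp at h
    | cons Y' l ih =>
      rw [tau_cons]
      rcases List.mem_cons.1 h with rfl | h'
      · rw [t1, hidem, sub_self]
      · rw [ih h', map_zero, sub_self]
  have t3 : ∀ 𝒴 (l : List 𝒥), (∀ Y ∈ l, Y ∈ 𝒴) → ∀ a, a - tau π l a ∈ G 𝒴 := by
    intro 𝒴 l hl a
    induction l with
    | nil =>
      show a - a ∈ _
      rw [sub_self]; exact zero_mem _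
    | cons Y l ih =>
      rw [tau_cons]
      have : a - (tau π l a - π Y (tau π l a)) = (a - tau π l a) + π Y (tau π l a) := by abel
      rw [this]
      exact add_mem (ih (fun Y' h => hl Y' (List.mem_cons_of_mem _ h)))
        (hG 𝒴 Y (hl Y List.mem_cons_self) _)
  have t4 : ∀ (l : List 𝒥) E, ∀ a ∈ B E, tau π l a ∈ B E := by
    intro l E a ha
    induction l with
    | nil => exact ha
    | cons Y l ih =>
      rw [tau_cons]
      exact sub_mem ih (hπB Y E _ ih)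
  have t5 : ∀ 𝒴, ∀ g ∈ G 𝒴, ∃ l : List 𝒥, (∀ Y ∈ l, Y ∈ 𝒴) ∧
      ∀ l' : List 𝒥, (∀ Y ∈ l, Y ∈ l') → tau π l' g = 0 := by
    intro 𝒴 g hg
    induction hg using AddSubgroup.closure_induction with
    | mem a ha =>
      obtain ⟨Y, hY, b, rfl⟩ := ha
      refine ⟨[Y], by simpa using hY, fun l' hl' => t2 l' Y b (hl' Y (by simp))⟩
    | zero => exact ⟨[], by simp, fun l' _ => map_zero _⟩
    | add a b _ _ ha hb =>
      obtain ⟨l1, h1, h1'⟩ := ha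
      obtain ⟨l2, h2, h2'⟩ := hb
      refine ⟨l1 ++ l2, ?_, fun l' hl' => ?_⟩
      · intro Y hY
        rcases List.mem_append.1 hY with h | h
        · exact h1 Y h
        · exact h2 Y h
      · rw [map_add, h1' l' (fun Y h => hl' Y (List.mem_append_left _ h)),
          h2' l' (fun Y h => hl' Y (List.mem_append_right _ h)), add_zero]
    | neg a _ ha =>
      obtain ⟨l1, h1, h1'⟩ := ha
      exact ⟨l1, h1, fun l' hl' => by rw [map_neg, h1' l' hl', neg_zero]⟩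
  have hgood : ∀ 𝒴, Good B m (G 𝒴) := by
    intro 𝒴
    constructor
    · intro n a ha
      obtain ⟨l, h1, h2⟩ := t5 𝒴 _ ha
      refine ⟨a - tau π l a, t3 𝒴 l h1 a, ?_⟩
      rw [smul_sub, ← map_nsmul, h2 l (fun _ h => h), sub_zero]
    · intro E a ha b hab
      obtain ⟨l, h1, h2⟩ := t5 𝒴 _ hab
      have h3 := h2 l (fun _ h => h)
      rw [map_sub, map_nsmul, sub_eq_zero] at h3
      have h4 := hB E _ (t4 l E a ha) _ h3
      have h5 := t3 𝒴 l h1 a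
      rwa [h4, sub_zero] at h5
  have hG0 : G ∅ = ⊥ := by
    rw [eq_bot_iff]
    apply (AddSubgroup.closure_le _).2
    rintro _ ⟨Y, hY, _⟩
    exact absurd hY (Set.notMem_empty _)
  obtain ⟨N, ⟨𝒴, rfl⟩, h4, h5⟩ := zornDec (⊥ : AddSubgroup A) (Set.range G) ⟨∅, hG0⟩ (by
    intro c hc _ _
    refine ⟨{Y | ∃ Q ∈ c, ∀ b, π Y b ∈ Q}, le_antisymm ?_ ?_⟩
    · apply (AddSubgroup.closure_le _).2
      rintro _ ⟨Y, ⟨Q, hQ, hQ'⟩, b, rfl⟩
      exact (le_sSup hQ : Q ≤ sSup c) (hQ' b)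
    · apply sSup_le
      intro Q hQ
      obtain ⟨𝒴, rfl⟩ := hc hQ
      exact hGmono _ _ (fun Y hY => ⟨_, hQ, hG 𝒴 Y hY⟩))
  have h6 : G 𝒴 = ⊤ := by
    rw [eq_top_iff]
    intro x _
    obtain ⟨Y, hxY⟩ := hfix x
    obtain ⟨𝓕, h𝓕, h𝓕'⟩ := hY Y
    have := h𝓕.to_subtype
    have h7 : Dec (G 𝒴) (G (insert Y 𝒴)) := by
      refine stepDec (𝓔 := 𝓕) ht (fun E => B E.1) (fun E => m E.1) (fun E => hm E.1) _ _
        (hGmono _ _ (Set.subset_insert _ _))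
        ⟨(hgood _).1, fun E => (hgood _).2 E.1⟩ ⟨(hgood _).1, fun E => (hgood _).2 E.1⟩ ?_
      intro y hy
      have h8 : ∃ b, y - π Y b ∈ G 𝒴 := by
        induction hy using AddSubgroup.closure_induction with
        | mem a ha =>
          obtain ⟨Y', hY', b, rfl⟩ := ha
          rcases hY' with rfl | h
          · exact ⟨b, by rw [sub_self]; exact zero_mem _⟩
          · exact ⟨0, by rw [map_zero, sub_zero]; exact hG 𝒴 Y' h b⟩
        | zero => exact ⟨0, by rw [map_zero, sub_zero]; exact zero_mem _⟩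
        | add a b _ _ ha hb =>
          obtain ⟨c1, h1⟩ := ha
          obtain ⟨c2, h2⟩ := hb
          refine ⟨c1 + c2, ?_⟩
          have : a + b - π Y (c1 + c2) = (a - π Y c1) + (b - π Y c2) := by rw [map_add]; abel
          rw [this]
          exact add_mem h1 h2
        | neg a _ ha =>
          obtain ⟨c1, h1⟩ := ha
          refine ⟨-c1, ?_⟩
          have : -a - π Y (-c1) = -(a - π Y c1) := by rw [map_neg]; abel
          rw [this]
          exact neg_mem h1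
      obtain ⟨b, hb⟩ := h8
      obtain ⟨E, hE, hE'⟩ := h𝓕' b
      exact ⟨⟨E, hE⟩, _, hE', hb⟩
    apply h5 _ ⟨_, rfl⟩ h7
    rw [← hxY]
    exact hG _ Y (Set.mem_insert _ _) x
  rwa [h6] at h4

theorem retr_of_dec (h : Dec (⊥ : AddSubgroup A) ⊤) :
    ∃ D : A → Set A, (∀ a, (D a).Countable) ∧ ∀ M : AddSubgroup A, (∀ a ∈ M, D a ⊆ M) →
      ∃ r : A →+ A, (∀ a, r a ∈ M) ∧ ∀ a ∈ M, r a = a := by
  classical
  obtain ⟨𝒦, h1, h2, h3⟩ := h
  rw [bot_sup_eq] at h3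
  have hex : ∀ a : A, ∃ x ∈ Adm 𝒦, sg x = a := by
    intro a
    have : a ∈ FS 𝒦 := by rw [h3]; trivial
    exact this
  choose d hd1 hd2 using hex
  have hadd : ∀ a b, d (a + b) = d a + d b := by
    intro a b
    rw [← sub_eq_zero]
    apply h2 _ (sub_mem (hd1 _) (add_mem (hd1 _) (hd1 _)))
    rw [map_sub, map_add, hd2, hd2, hd2, sub_self]
    exact zero_mem _
  let dd : A →+ (AddSubgroup A →₀ A) := AddMonoidHom.mk' d hadd
  refine ⟨fun a => ⋃ K ∈ (d a).support, (K : Set A), fun a => ?_, fun M hM => ?_⟩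
  · refine Set.Countable.biUnion (d a).support.countable_toSet (fun K hK => h1 K ?_)
    by_contra h
    exact (Finsupp.mem_support_iff.1 hK) ((hd1 a K).2 h)
  · refine ⟨sg.comp ((Finsupp.filterAddHom (fun K : AddSubgroup A => K ≤ M)).comp dd),
      fun a => ?_, fun a ha => ?_⟩
    · show sg ((d a).filter (fun K => K ≤ M)) ∈ M
      rw [sg_apply]
      apply sum_mem
      intro K _
      rw [Finsupp.filter_apply]
      split_ifs with h
      · exact h (hd1 a K).1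
      · exact zero_mem _
    · show sg ((d a).filter (fun K => K ≤ M)) = a
      conv_rhs => rw [← hd2 a]
      congr 1
      ext K
      rw [Finsupp.filter_apply]
      split_ifs with h
      · rfl
      · by_contra h4
        apply h
        intro y hy
        apply hM a ha
        simp only [Set.mem_iUnion]
        exact ⟨K, Finsupp.mem_support_iff.2 (fun h5 => h4 h5.symm), hy⟩

end dec

end Pool.Agent.H54Z.FC
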