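import Pool.Agent.H54Z.FC.Abel

/-!
# The amalgam of the finitary locally inner automorphisms with the finite valued sections
-/

set_option autoImplicit false

namespace Pool.Agent.H54Z.FC

open Pool.Agent.Helper316 Pool.Agent.Helper316.FCV

section gam

variable {G : Type} [Group G]

theorem dl_class {y : MulAut G} {h c : G} (hh : dl y h ∈ Subgroup.center G)
    (hc : dl y c ∈ Subgroup.center G) : dl y (c⁻¹ * h * c) = dl y h :=
  FCZ.FC.dl_class (y := y) hh hc

theorem central_of_dl {d : MulAut G} (hd : ∀ g, dl d g ∈ Subgroup.center G) {y : MulAut G}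
    (hy : LI (y : G → G)) : d * y = y * d :=
  FCZ.FC.central_of_dl (d := d) hd hy

theorem dl_inv_central {x : MulAut G} (hx : x ∈ XX G) {g : G} (h : dl x g ∈ Subgroup.center G) :
    dl x⁻¹ g = (dl x g)⁻¹ :=
  FCZ.FC.dl_inv_central (x := x) hx h

theorem dl_one (g : G) : dl (1 : MulAut G) g = 1 := by simp [dl]

/-- the centre intersected with the derived subgroup -/
def ZZ (G : Type) [Group G] : Subgroup G := Subgroup.center G ⊓ commutator G

instance : CommGroup (ZZ G) :=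
  { (inferInstance : Group (ZZ G)) with
    mul_comm := fun a b => Subtype.ext (Subgroup.mem_center_iff.mp a.2.1 b.1).symm }

/-- additive version -/
abbrev CC (G : Type) [Group G] : Type := Additive (ZZ G)

open Classical in
/-- the element of `CC` given by a group element -/
noncomputable def chi (z : G) : CC G := if h : z ∈ ZZ G then Additive.ofMul ⟨z, h⟩ else 0

theorem chi_of_mem {z : G} (h : z ∈ ZZ G) : chi z = Additive.ofMul ⟨z, h⟩ := dif_pos h

theorem chi_mul {z z' : G} (h : z ∈ ZZ G) (h' : z' ∈ ZZ G) : chi (z * z') = chi z + chi z' := by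
  rw [chi_of_mem h, chi_of_mem h', chi_of_mem (mul_mem h h')]
  rfl

theorem chi_one : chi (1 : G) = 0 := by
  rw [chi_of_mem (one_mem _)]
  rfl

theorem chi_inv {z : G} (h : z ∈ ZZ G) : chi z⁻¹ = - chi z := by
  rw [chi_of_mem h, chi_of_mem (inv_mem h)]
  rfl

theorem chi_sep {z : G} (h : z ∈ ZZ G) (h0 : chi z = 0) : z = 1 := by
  rw [chi_of_mem h] at h0
  exact congrArg Subtype.val (show (⟨z, h⟩ : ZZ G) = 1 from h0)

/-- representatives of conjugacy classes -/
noncomputable def rp (i : ConjClasses G) : G := Quotient.out i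

theorem ex_rp (g : G) : ∃ (i : ConjClasses G) (c : G), g = c⁻¹ * rp i * c := by
  have h : IsConj (rp (ConjClasses.mk g)) g := by
    apply ConjClasses.mk_eq_mk_iff_isConj.1
    exact Quotient.out_eq _
  obtain ⟨c, hc⟩ := isConj_iff.1 h
  exact ⟨ConjClasses.mk g, c⁻¹, by rw [inv_inv, hc]⟩

/-- the finite normal subgroup attached to a class -/
def RR (i : ConjClasses G) : Subgroup G :=
  Subgroup.normalClosure {u | ∃ c, u = (rp i)⁻¹ * (c⁻¹ * rp i * c)}

/-- the finite subgroup of `CC` attached to a class -/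
def FI (i : ConjClasses G) : AddSubgroup (CC G) where
  carrier := {c | ((Additive.toMul c : ZZ G) : G) ∈ RR i}
  zero_mem' := (RR i).one_mem
  add_mem' := fun ha hb => (RR i).mul_mem ha hb
  neg_mem' := fun ha => (RR i).inv_mem ha

theorem FI_finite (hFC : FCG G) (i : ConjClasses G) : (FI i : Set (CC G)).Finite := by
  have h1 : ((RR i : Subgroup G) : Set G).Finite := by
    apply hFC.nc_comm_finite
    · refine ((hFC.fin (rp i)).image (fun u => (rp i)⁻¹ * u)).subset ?_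
      rintro _ ⟨c, rfl⟩
      exact ⟨_, ⟨c, rfl⟩, rfl⟩
    · rintro _ ⟨c, rfl⟩
      have := (conj_mem_XX hFC c⁻¹).1.dl_comm (rp i)
      simpa [dl] using this
  refine Set.Finite.preimage (f := fun c : CC G => ((Additive.toMul c : ZZ G) : G)) ?_ h1
  intro a _ b _ hab
  exact Subtype.ext hab

/-- finite valued class functions -/
abbrev VG (G : Type) [Group G] : Type := VV (FI (G := G))

/-- the displacement of an automorphism as a class function -/
noncomputable def psi (y : MulAut G) (hy : y ∈ XX G) : VG G :=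
  ⟨fun i => chi (dl y (rp i)), by
    constructor
    · refine (hy.2.image chi).subset ?_
      rintro _ ⟨i, rfl⟩
      exact ⟨_, ⟨rp i, rfl⟩, rfl⟩
    · intro i
      by_cases h : dl y (rp i) ∈ ZZ G
      · show chi (dl y (rp i)) ∈ FI i
        rw [chi_of_mem h]
        show dl y (rp i) ∈ RR i
        apply Subgroup.subset_normalClosure
        obtain ⟨c, hc⟩ := hy.1 {rp i}
        refine ⟨c, ?_⟩
        unfold dl
        rw [hc _ (by simp)]
      · show chi (dl y (rp i)) ∈ FI i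
        unfold chi
        rw [dif_neg h]
        exact zero_mem _⟩

theorem psi_apply (y : MulAut G) (hy : y ∈ XX G) (i : ConjClasses G) :
    (psi y hy).1 i = chi (dl y (rp i)) := rfl

/-- the direct product -/
abbrev G0 (G : Type) [Group G] : Type := (XX G) × Multiplicative (VG G)

/-- second component as a function -/
def fn (p : G0 G) : ConjClasses G → CC G := (Multiplicative.toAdd p.2).1

theorem fn_mul (p q : G0 G) (i : ConjClasses G) : fn (p * q) i = fn p i + fn q i := rfl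
theorem fn_inv (p : G0 G) (i : ConjClasses G) : fn p⁻¹ i = - fn p i := rfl
theorem fn_one (i : ConjClasses G) : fn (1 : G0 G) i = 0 := rfl

theorem G0_ext {p q : G0 G} (h1 : p.1.1 = q.1.1) (h2 : ∀ i, fn p i = fn q i) : p = q := by
  apply Prod.ext
  · exact Subtype.ext h1
  · apply Multiplicative.toAdd.injective
    apply Subtype.ext
    funext i
    exact h2 i

/-- the relation subgroup -/
def Del (G : Type) [Group G] : Subgroup (G0 G) where
  carrier := {p | (∀ g, dl p.1.1 g ∈ Subgroup.center G) ∧ ∀ i, fn p i = - chi (dl p.1.1 (rp i))}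
  one_mem' := by
    refine ⟨fun g => ?_, fun i => ?_⟩
    · show dl (1 : MulAut G) g ∈ _
      rw [dl_one]; exact one_mem _
    · show (0 : CC G) = - chi (dl (1 : MulAut G) (rp i))
      rw [dl_one, chi_one, neg_zero]
  mul_mem' := by
    rintro p q ⟨hp, hp'⟩ ⟨hq, hq'⟩
    have h1 : ∀ g, dl (p * q).1.1 g = dl p.1.1 g * dl q.1.1 g := by
      intro g
      show dl (p.1.1 * q.1.1) g = _
      rw [dl_mul, p.1.2.1.center (hq g)]
    refine ⟨fun g => ?_, fun i => ?_⟩
    · rw [h1]; exact mul_mem (hp g) (hq g)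
    · rw [fn_mul, h1, hp', hq', chi_mul ⟨hp _, p.1.2.1.dl_comm _⟩ ⟨hq _, q.1.2.1.dl_comm _⟩]
      abel
  inv_mem' := by
    rintro p ⟨hp, hp'⟩
    have h1 : ∀ g, dl (p⁻¹).1.1 g = (dl p.1.1 g)⁻¹ := fun g => dl_inv_central p.1.2 (hp g)
    refine ⟨fun g => ?_, fun i => ?_⟩
    · rw [h1]; exact inv_mem (hp g)
    · rw [fn_inv, h1, hp', chi_inv ⟨hp _, p.1.2.1.dl_comm _⟩]

instance Del_normal : (Del G).Normal := by
  constructor
  intro p hp q
  have h1 : (q * p * q⁻¹) = p := by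
    apply G0_ext
    · show q.1.1 * p.1.1 * (q.1.1)⁻¹ = p.1.1
      rw [← central_of_dl hp.1 q.1.2.1]
      group
    · intro i
      rw [fn_mul, fn_mul, fn_inv]
      abel
  rw [h1]
  exact hp

/-- the amalgam -/
abbrev Gam (G : Type) [Group G] : Type := G0 G ⧸ Del G

theorem CC_tors (hFC : FCG G) (c : CC G) : ∃ n : ℕ, 0 < n ∧ n • c = 0 := by
  have h1 := hFC.comm_torsion _ (Additive.toMul c).2.2
  obtain ⟨n, hn, hn'⟩ := isOfFinOrder_iff_pow_eq_one.1 h1
  exact ⟨n, hn, Subtype.ext hn'⟩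

theorem CC_haus (hR : FCX.ResX G) (c : CC G) (hc : c ≠ 0) :
    ∃ m : ℕ, 0 < m ∧ ∀ d, c ≠ m • d := by
  obtain ⟨N, m, _, hm, hcN, hN⟩ := hR.one ((Additive.toMul c : ZZ G) : G)
    (fun h => hc (Subtype.ext h))
  refine ⟨m, hm, fun d hd => hcN ?_⟩
  rw [hd]
  exact hN _ (Additive.toMul d).2.2

theorem Gam_lf (hFC : FCG G) (x : Gam G) :
    ∃ N : Subgroup (Gam G), N.Normal ∧ (N : Set (Gam G)).Finite ∧ x ∈ N := by
  obtain ⟨p, rfl⟩ := QuotientGroup.mk_surjective x
  have hN2 : ((Subgroup.normalClosure {p.1} : Subgroup (XX G)) : Set (XX G)).Finite := by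
    apply FCX.XX_fc.nc_finite _ (Set.finite_singleton _)
    intro s hs
    rw [Set.mem_singleton_iff.1 hs]
    exact isOfFinOrder_iff_pow_eq_one.2 (FCX.XX_tors hFC p.1)
  have h2 : ((Subgroup.zpowers p.2 : Subgroup (Multiplicative (VG G))) :
      Set (Multiplicative (VG G))).Finite := by
    apply finite_zpowers.2
    exact isOfFinOrder_iff_pow_eq_one.2 (VV_tors (CC_tors hFC) (Multiplicative.toAdd p.2))
  refine ⟨((Subgroup.normalClosure {p.1}).prod (Subgroup.zpowers p.2)).map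
    (QuotientGroup.mk' (Del G)), ?_, ?_, ?_⟩
  · have : ((Subgroup.normalClosure {p.1}).prod (Subgroup.zpowers p.2)).Normal := inferInstance
    exact this.map _ (QuotientGroup.mk'_surjective _)
  · rw [Subgroup.coe_map]
    apply Set.Finite.image
    rw [Subgroup.coe_prod]
    exact hN2.prod h2
  · exact ⟨p, ⟨Subgroup.subset_normalClosure rfl, Subgroup.mem_zpowers _⟩, rfl⟩

/-- normal subgroups of finite index -/
def NN (u : ConjClasses G) : Subgroup (G0 G) where
  carrier := {q | ∀ g, (∃ c, g = c⁻¹ * rp u * c) → (dl q.1.1 g ∈ Subgroup.center G ∧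
    chi (dl q.1.1 g) + fn q u = 0)}
  one_mem' := by
    intro g _
    refine ⟨?_, ?_⟩
    · show dl (1 : MulAut G) g ∈ _
      rw [dl_one]; exact one_mem _
    · show chi (dl (1 : MulAut G) g) + 0 = 0
      rw [dl_one, chi_one, add_zero]
  mul_mem' := by
    intro p q hp hq g hg
    obtain ⟨h1, h2⟩ := hp g hg
    obtain ⟨h3, h4⟩ := hq g hg
    have h5 : dl (p.1.1 * q.1.1) g = dl p.1.1 g * dl q.1.1 g := by
      rw [dl_mul, p.1.2.1.center h3]
    refine ⟨?_, ?_⟩
    · show dl (p.1.1 * q.1.1) g ∈ _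
      rw [h5]; exact mul_mem h1 h3
    · show chi (dl (p.1.1 * q.1.1) g) + (fn p u + fn q u) = 0
      rw [h5, chi_mul ⟨h1, p.1.2.1.dl_comm g⟩ ⟨h3, q.1.2.1.dl_comm g⟩, add_add_add_comm, h2, h4,
        add_zero]
  inv_mem' := by
    intro p hp g hg
    obtain ⟨h1, h2⟩ := hp g hg
    have h5 : dl (p.1.1)⁻¹ g = (dl p.1.1 g)⁻¹ := dl_inv_central p.1.2 h1
    refine ⟨?_, ?_⟩
    · show dl (p.1.1)⁻¹ g ∈ _
      rw [h5]; exact inv_mem h1
    · show chi (dl (p.1.1)⁻¹ g) + (- fn p u) = 0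
      rw [h5, chi_inv ⟨h1, p.1.2.1.dl_comm g⟩, ← neg_add, h2, neg_zero]

theorem NN_normal (u : ConjClasses G) : (NN u).Normal := by
  constructor
  intro p hp q g hg
  have hinv := (inv_mem q.1.2 : (q.1.1)⁻¹ ∈ XX G)
  obtain ⟨c, hc⟩ := hinv.1 {g}
  have hcg := hc g (by simp)
  have hg' : ∃ c, (q.1.1)⁻¹ g = c⁻¹ * rp u * c := by
    obtain ⟨d, hd⟩ := hg
    refine ⟨d * c, ?_⟩
    rw [hcg, hd]; group
  obtain ⟨h1, h2⟩ := hp _ hg'
  have h3 : dl (q.1.1 * p.1.1 * (q.1.1)⁻¹) g = dl p.1.1 ((q.1.1)⁻¹ g) := by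
    have : (q.1.1 * p.1.1 * (q.1.1)⁻¹) g = g * dl p.1.1 ((q.1.1)⁻¹ g) := by
      rw [MulAut.mul_apply, MulAut.mul_apply, dl_eq p.1.1 ((q.1.1)⁻¹ g), map_mul,
        q.1.2.1.center h1, MulAut.apply_inv_self]
    have h4 : dl (q.1.1 * p.1.1 * (q.1.1)⁻¹) g = g⁻¹ * (q.1.1 * p.1.1 * (q.1.1)⁻¹) g := rfl
    rw [h4, this]; group
  refine ⟨?_, ?_⟩
  · show dl (q.1.1 * p.1.1 * (q.1.1)⁻¹) g ∈ _
    rw [h3]; exact h1
  · show chi (dl (q.1.1 * p.1.1 * (q.1.1)⁻¹) g) + (fn q u + fn p u + - fn q u) = 0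
    rw [h3, ← h2]
    abel

theorem Del_le_NN (u : ConjClasses G) : Del G ≤ NN u := by
  rintro p hp g ⟨c, rfl⟩
  refine ⟨hp.1 _, ?_⟩
  rw [hp.2 u, dl_class (hp.1 _) (hp.1 _), add_neg_cancel]

theorem NN_fi (hFC : FCG G) (u : ConjClasses G) : (NN u).FiniteIndex := by
  classical
  have hcls := hFC.fin (rp u)
  set A : Subgroup (XX G) := ⨅ s ∈ hcls.toFinset, MulAction.stabilizer (XX G) s with hA
  have hAfi : A.FiniteIndex := by
    apply Subgroup.finiteIndex_iInf'
    intro s _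
    constructor
    rw [MulAction.index_stabilizer]
    have hfin : (MulAction.orbit (XX G) s).Finite := by
      refine (hFC.fin s).subset ?_
      rintro _ ⟨y, rfl⟩
      obtain ⟨c, hc⟩ := y.2.1 {s}
      exact ⟨c, hc s (by simp)⟩
    intro h0
    rw [Set.ncard_eq_zero hfin] at h0
    have : s ∈ MulAction.orbit (XX G) s := MulAction.mem_orbit_self s
    rw [h0] at this
    exact this
  have hAmem : ∀ y : XX G, y ∈ A → ∀ s ∈ hcls.toFinset, y.1 s = s := by
    intro y hy s hs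
    rw [hA, Subgroup.mem_iInf] at hy
    have := hy s
    rw [Subgroup.mem_iInf] at this
    exact this hs
  have hfin : Finite (FI u) := (FI_finite hFC u).to_subtype
  let ev : G0 G →* Multiplicative (FI u) :=
    { toFun := fun p => Multiplicative.ofAdd ⟨fn p u, (Multiplicative.toAdd p.2).2.2 u⟩
      map_one' := rfl
      map_mul' := fun p q => rfl }
  have hB : (ev.ker : Subgroup (G0 G)).FiniteIndex := inferInstance
  have h1 : (A.comap (MonoidHom.fst (XX G) (Multiplicative (VG G)))).FiniteIndex :=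
    FCZ.FC.fi_comap _ _ hAfi
  have h2 : (A.comap (MonoidHom.fst (XX G) (Multiplicative (VG G))) ⊓ ev.ker :
    Subgroup (G0 G)).FiniteIndex := inferInstance
  refine Subgroup.finiteIndex_of_le
    (H := A.comap (MonoidHom.fst (XX G) (Multiplicative (VG G))) ⊓ ev.ker) ?_
  rintro p ⟨hp1, hp2⟩ g hg
  have h3 : p.1.1 g = g := hAmem p.1 hp1 g (hcls.mem_toFinset.mpr hg)
  have h4 : dl p.1.1 g = 1 := by unfold dl; rw [h3]; group
  refine ⟨by rw [h4]; exact one_mem _, ?_⟩
  have h5 : fn p u = 0 := congrArg Subtype.val (show (⟨fn p u, (Multiplicative.toAdd p.2).2.2 u⟩ :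
    FI u) = 0 from hp2)
  rw [h4, chi_one, h5, add_zero]

theorem Gam_rf (hFC : FCG G) (x : Gam G) (hx : x ≠ 1) :
    ∃ N : Subgroup (Gam G), N.Normal ∧ N.FiniteIndex ∧ x ∉ N := by
  classical
  obtain ⟨p, rfl⟩ := QuotientGroup.mk_surjective x
  have hp : p ∉ Del G := fun h => hx ((QuotientGroup.eq_one_iff p).mpr h)
  have key : ∃ u, p ∉ NN u := by
    by_contra hcon
    push Not at hcon
    apply hp
    refine ⟨fun g => ?_, fun i => ?_⟩
    · obtain ⟨i, c, hc⟩ := ex_rp g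
      exact (hcon i g ⟨c, hc⟩).1
    · have := (hcon i (rp i) ⟨1, by simp⟩).2
      exact eq_neg_of_add_eq_zero_right this
  obtain ⟨u, hu⟩ := key
  have hn := NN_normal u
  have hfi := NN_fi hFC u
  refine ⟨(NN u).map (QuotientGroup.mk' (Del G)), ?_, ?_, ?_⟩
  · exact hn.map _ (QuotientGroup.mk'_surjective _)
  · constructor
    intro h0
    have := Subgroup.index_map_dvd (NN u) (QuotientGroup.mk'_surjective (Del G))
    rw [h0, zero_dvd_iff] at this
    exact hfi.index_ne_zero this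
  · rintro ⟨q, hq, hqp⟩
    have h1 : q⁻¹ * p ∈ Del G := QuotientGroup.eq.mp hqp
    have h2 := Del_le_NN u h1
    apply hu
    have : p = q * (q⁻¹ * p) := by group
    rw [this]
    exact mul_mem hq h2

/-- data attached to a closed set -/
structure Sys (hFC : FCG G) (C : Set (Om G)) (MV : Set (VG G)) : Prop where
  cl : Closed (FF hFC) C
  zero : 0 ∈ MV
  sub : ∀ a ∈ MV, ∀ b ∈ MV, a - b ∈ MV
  cen : ∀ k ∈ XX G, (Sum.inr k : Om G) ∈ C →
    (∀ h : G, (Sum.inl h : Om G) ∈ C → dl k h ∈ Subgroup.center G) →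
    ∀ g, dl k g ∈ Subgroup.center G
  psi : ∀ k (hk : k ∈ XX G), (Sum.inr k : Om G) ∈ C → psi k hk ∈ MV
  retr : ∃ r : VG G →+ VG G, (∀ v, r v ∈ MV) ∧ (∀ v ∈ MV, r v = v) ∧
    ∀ v : VG G, (∀ i, (Sum.inl (rp i) : Om G) ∈ C → v.1 i = 0) → r v = 0

/-- labelled pairs -/
def PPset (C : Set (Om G)) (MV : Set (VG G)) : Set (G0 G) :=
  {p | (Sum.inr p.1.1 : Om G) ∈ C ∧ Multiplicative.toAdd p.2 ∈ MV}

/-- images -/
def PG (C : Set (Om G)) (MV : Set (VG G)) : Subgroup (Gam G) :=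
  Subgroup.map (QuotientGroup.mk' (Del G)) (Subgroup.closure (PPset C MV))

variable {hFC : FCG G} {C : Set (Om G)} {MV : Set (VG G)}

theorem Sys.neg (hS : Sys hFC C MV) {a : VG G} (ha : a ∈ MV) : -a ∈ MV := by
  have := hS.sub 0 hS.zero a ha
  rwa [zero_sub] at this

theorem Sys.add (hS : Sys hFC C MV) {a b : VG G} (ha : a ∈ MV) (hb : b ∈ MV) : a + b ∈ MV := by
  have := hS.sub a ha _ (hS.neg hb)
  rwa [sub_neg_eq_add] at this

/-- the subgroup -/
def PP (hS : Sys hFC C MV) : Subgroup (G0 G) where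
  carrier := PPset C MV
  one_mem' := ⟨c_x1 hS.cl, hS.zero⟩
  mul_mem' := fun hp hq => ⟨c_U2 hS.cl hp.1 hq.1, hS.add hp.2 hq.2⟩
  inv_mem' := fun {p} hp => ⟨(c_U1 hS.cl hp.1 p.1.2).1, hS.neg hp.2⟩

theorem mem_PG (hS : Sys hFC C MV) (x : Gam G) :
    x ∈ PG C MV ↔ ∃ p ∈ PPset C MV, (QuotientGroup.mk p : Gam G) = x := by
  have h1 : Subgroup.closure (PPset C MV) = PP hS := by
    have : (PPset C MV) = (PP hS : Set (G0 G)) := rfl
    rw [this, Subgroup.closure_eq]
  unfold PG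
  rw [h1]
  rfl

theorem PG_normal (hS : Sys hFC C MV) : (PG C MV).Normal := by
  constructor
  intro x hx y
  obtain ⟨p, ⟨hp, hp'⟩, rfl⟩ := (mem_PG hS x).mp hx
  obtain ⟨q, rfl⟩ := QuotientGroup.mk_surjective y
  refine (mem_PG hS _).mpr ⟨q * p * q⁻¹, ⟨?_, ?_⟩, rfl⟩
  · have := ((c_U1 hS.cl hp) p.1.2).2.1 (q.1.1)⁻¹ (inv_mem q.1.2)
    rw [inv_inv] at this
    exact this
  · have : Multiplicative.toAdd (q * p * q⁻¹).2 = Multiplicative.toAdd p.2 := by
      show Multiplicative.toAdd q.2 + Multiplicative.toAdd p.2 + - Multiplicative.toAdd q.2 = _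
      abel
    rw [this]
    exact hp'

theorem exRho (hS : Sys hFC C MV) :
    ∃ ρ : Gam G →* Gam G, (∀ x, ρ x ∈ PG C MV) ∧ ∀ x ∈ PG C MV, ρ x = x := by
  classical
  have hC := hS.cl
  obtain ⟨r, hr1, hr2, hr3⟩ := hS.retr
  have hz : ∀ v v' : VG G, (∀ i, (Sum.inl (rp i) : Om G) ∈ C → v.1 i = v'.1 i) → r v = r v' := by
    intro v v' h
    rw [← sub_eq_zero, ← map_sub]
    apply hr3
    intro i hi
    show v.1 i - v'.1 i = 0
    rw [h i hi, sub_self]
  choose k hk1 hk2 hk3 using (fun x : XX G => c_exK hC x.2)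
  have dl_li : ∀ {y : MulAut G}, (∀ h : G, (Sum.inl h : Om G) ∈ C → dl y h ∈ Subgroup.center G) →
      ∀ {x : MulAut G}, LI (x : G → G) → ∀ {h : G}, (Sum.inl h : Om G) ∈ C →
      dl y (x h) = dl y h := by
    intro y hy x hx h hh
    obtain ⟨c, hc⟩ := hx {h}
    rw [hc h (by simp)]
    obtain ⟨c', hc', he⟩ := c_conj hC hh c
    rw [he]
    exact dl_class (hy h hh) (hy c' hc')
  let el : (kk : XX G) → (y : MulAut G) → (v : VG G) → y ∈ XX G → G0 G :=
    fun kk y v hy => (kk, Multiplicative.ofAdd (r (v + psi y hy)))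
  have hWD : ∀ (k1 k2 : XX G) (y1 y2 : MulAut G) (v : VG G) (hy1 : y1 ∈ XX G) (hy2 : y2 ∈ XX G)
      (_ : ∀ h : G, (Sum.inl h : Om G) ∈ C → dl y1 h ∈ Subgroup.center G)
      (_ : ∀ h : G, (Sum.inl h : Om G) ∈ C → dl y2 h ∈ Subgroup.center G),
      (Sum.inr k1.1 : Om G) ∈ C → (Sum.inr k2.1 : Om G) ∈ C → k1.1 * y1 = k2.1 * y2 →
      (QuotientGroup.mk (el k1 y1 v hy1) : Gam G) = QuotientGroup.mk (el k2 y2 v hy2) := by
    intro k1 k2 y1 y2 v hy1 hy2 hc1 hc2 hk1C hk2C heq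
    rw [QuotientGroup.eq]
    set d := k1.1⁻¹ * k2.1 with hd
    have hdX : d ∈ XX G := mul_mem (inv_mem k1.2) k2.2
    have hdC : (Sum.inr d : Om G) ∈ C := by
      have h1 := ((c_U1 hC hk1C) k1.2).1
      exact c_U2 hC h1 hk2C
    have hyd : y1 = d * y2 := by
      rw [hd, mul_assoc, ← heq]; group
    have hdl : ∀ h : G, (Sum.inl h : Om G) ∈ C → dl y1 h = dl d h * dl y2 h := by
      intro h hh
      rw [hyd, dl_mul, hdX.1.center (hc2 h hh)]
    have hdH : ∀ h : G, (Sum.inl h : Om G) ∈ C → dl d h ∈ Subgroup.center G := by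
      intro h hh
      have : dl d h = dl y1 h * (dl y2 h)⁻¹ := by rw [hdl h hh]; group
      rw [this]
      exact mul_mem (hc1 h hh) (inv_mem (hc2 h hh))
    have hdG := hS.cen d hdX hdC hdH
    refine ⟨hdG, fun i => ?_⟩
    show - (r (v + psi y1 hy1)).1 i + (r (v + psi y2 hy2)).1 i = - chi (dl d (rp i))
    have h1 := hr2 _ (hS.psi d hdX hdC)
    have h2 : r (v + psi y1 hy1) = r ((v + psi y2 hy2) + psi d hdX) := by
      apply hz
      intro j hj
      show v.1 j + chi (dl y1 (rp j)) = (v.1 j + chi (dl y2 (rp j))) + chi (dl d (rp j))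
      rw [hdl _ hj, chi_mul ⟨hdH _ hj, hdX.1.dl_comm _⟩ ⟨hc2 _ hj, hy2.1.dl_comm _⟩]
      abel
    rw [h2, map_add, h1]
    show - ((r (v + psi y2 hy2)).1 i + chi (dl d (rp i))) + (r (v + psi y2 hy2)).1 i = _
    abel
  let yy : XX G → MulAut G := fun x => (k x)⁻¹ * x.1
  have hyX : ∀ x, yy x ∈ XX G := fun x => mul_mem (inv_mem (hk1 x)) x.2
  let ρ0 : G0 G → Gam G := fun p => QuotientGroup.mk
    (el ⟨k p.1, hk1 p.1⟩ (yy p.1) (Multiplicative.toAdd p.2) (hyX p.1))
  have hρ0 : ∀ (p : G0 G) (k' : XX G) (y' : MulAut G) (hy' : y' ∈ XX G)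
      (_ : ∀ h : G, (Sum.inl h : Om G) ∈ C → dl y' h ∈ Subgroup.center G),
      (Sum.inr k'.1 : Om G) ∈ C → p.1.1 = k'.1 * y' →
      ρ0 p = QuotientGroup.mk (el k' y' (Multiplicative.toAdd p.2) hy') := by
    intro p k' y' hy' hc' hkC heq
    refine hWD ⟨k p.1, hk1 p.1⟩ k' (yy p.1) y' (Multiplicative.toAdd p.2) (hyX p.1) hy'
      (hk3 p.1) hc' (hk2 p.1) hkC ?_
    show k p.1 * ((k p.1)⁻¹ * p.1.1) = _
    rw [← heq]; group
  have hmul : ∀ p q, ρ0 (p * q) = ρ0 p * ρ0 q := by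
    intro p q
    set kp := k p.1
    set kq := k q.1
    set yp := yy p.1 with hyp
    set yq := yy q.1 with hyq
    have hy'X : kq⁻¹ * yp * kq * yq ∈ XX G :=
      mul_mem (mul_mem (mul_mem (inv_mem (hk1 q.1)) (hyX p.1)) (hk1 q.1)) (hyX q.1)
    have hdl : ∀ h : G, (Sum.inl h : Om G) ∈ C →
        dl (kq⁻¹ * yp * kq * yq) h = dl yp h * dl yq h := by
      intro h hh
      have e1 : (kq⁻¹ * yp * kq * yq) h = h * (dl yp h * dl yq h) := by
        rw [MulAut.mul_apply, MulAut.mul_apply, MulAut.mul_apply, dl_eq yq h, map_mul,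
          (hk1 q.1).1.center (hk3 q.1 h hh), map_mul, (hyX p.1).1.center (hk3 q.1 h hh),
          dl_eq yp (kq h), dl_li (hk3 p.1) (hk1 q.1).1 hh, map_mul, map_mul,
          MulAut.inv_apply_self]
        have hinv := (inv_mem (hk1 q.1) : kq⁻¹ ∈ XX G)
        rw [hinv.1.center (hk3 p.1 h hh), hinv.1.center (hk3 q.1 h hh), mul_assoc]
      unfold dl at e1 ⊢
      rw [e1]
      group
    have hc' : ∀ h : G, (Sum.inl h : Om G) ∈ C →
        dl (kq⁻¹ * yp * kq * yq) h ∈ Subgroup.center G := by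
      intro h hh
      rw [hdl h hh]
      exact mul_mem (hk3 p.1 h hh) (hk3 q.1 h hh)
    rw [hρ0 (p * q) ⟨kp * kq, mul_mem (hk1 p.1) (hk1 q.1)⟩ _ hy'X hc'
      (c_U2 hC (hk2 p.1) (hk2 q.1)) (by
        show p.1.1 * q.1.1 = (kp * kq) * (kq⁻¹ * yp * kq * yq)
        have h1 : yp = kp⁻¹ * p.1.1 := rfl
        have h2 : yq = kq⁻¹ * q.1.1 := rfl
        rw [h1, h2]
        group)]
    show QuotientGroup.mk _ = QuotientGroup.mk (_ * _)
    congr 1
    apply Prod.ext
    · rfl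
    · show Multiplicative.ofAdd (r _) = Multiplicative.ofAdd (r _ + r _)
      rw [← map_add]
      congr 1
      apply hz
      intro j hj
      show ((Multiplicative.toAdd p.2).1 j + (Multiplicative.toAdd q.2).1 j) +
          chi (dl (kq⁻¹ * yp * kq * yq) (rp j)) =
            ((Multiplicative.toAdd p.2).1 j + chi (dl yp (rp j)))
            + ((Multiplicative.toAdd q.2).1 j + chi (dl yq (rp j)))
      rw [hdl _ hj, chi_mul ⟨hk3 p.1 _ hj, (hyX p.1).1.dl_comm _⟩
          ⟨hk3 q.1 _ hj, (hyX q.1).1.dl_comm _⟩]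
      abel
  have hker : ∀ p ∈ Del G, ρ0 p = 1 := by
    intro p hp
    rw [hρ0 p 1 p.1.1 p.1.2 (fun h _ => hp.1 h) (c_x1 hC) (by simp)]
    rw [QuotientGroup.eq_one_iff]
    have : el 1 p.1.1 (Multiplicative.toAdd p.2) p.1.2 = 1 := by
      apply Prod.ext
      · rfl
      · show Multiplicative.ofAdd (r _) = Multiplicative.ofAdd 0
        congr 1
        apply hr3
        intro j _
        show fn p j + chi (dl p.1.1 (rp j)) = 0
        rw [hp.2 j, neg_add_cancel]
    rw [this]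
    exact one_mem _
  let ρ : Gam G →* Gam G := QuotientGroup.lift (Del G) (MonoidHom.mk' ρ0 hmul) hker
  have hρmk : ∀ p : G0 G, ρ (QuotientGroup.mk p) = ρ0 p := fun p => rfl
  refine ⟨ρ, ?_, ?_⟩
  · intro x
    obtain ⟨p, rfl⟩ := QuotientGroup.mk_surjective x
    rw [hρmk]
    exact (mem_PG hS _).mpr ⟨_, ⟨hk2 p.1, hr1 _⟩, rfl⟩
  · intro x hx
    obtain ⟨p, ⟨hp, hp'⟩, rfl⟩ := (mem_PG hS x).mp hx
    rw [hρmk, hρ0 p p.1 1 (one_mem _) (fun h _ => by rw [dl_one]; exact one_mem _) hp (by simp)]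
    congr 1
    apply Prod.ext
    · rfl
    · show Multiplicative.ofAdd (r _) = Multiplicative.ofAdd (Multiplicative.toAdd p.2)
      congr 1
      rw [← hr2 _ hp']
      conv_lhs => rw [hr2 _ hp']
      apply hz
      intro j _
      show (Multiplicative.toAdd p.2).1 j + chi (dl (1 : MulAut G) (rp j)) = _
      rw [dl_one, chi_one, add_zero]

end gam

end Pool.Agent.H54Z.FC
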