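import Pool.Agent.H54Z.FC.Dec

/-!
# Extension of operators on `ZMod N`-valued functions to group valued functions
-/

set_option autoImplicit false

namespace Pool.Agent.H54Z.FC

open Pool.Agent.Helper316

section lift

variable {I C : Type} [AddCommGroup C] (N : ℕ)

/-- indicator function -/
noncomputable def ind (S : Set I) : I → ZMod N := S.indicator 1

/-- multiples of an element killed by `N` -/
def sm [NeZero N] (a : C) (ha : N • a = 0) : ZMod N →+ C :=
  AddMonoidHom.mk' (fun x => x.val • a) (by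
    intro x y
    show (x + y).val • a = x.val • a + y.val • a
    rw [ZMod.val_add, ← nsmul_eq_mod_nsmul _ ha, add_nsmul])

theorem sm_apply [NeZero N] (a : C) (ha : N • a = 0) (x : ZMod N) : sm N a ha x = x.val • a := rfl

/-- the extension of an operator to group valued functions -/
noncomputable def lift (π : (I → ZMod N) →+ (I → ZMod N)) (φ : I → C) (i : I) : C :=
  ∑ᶠ e : C, (π (ind N (φ ⁻¹' {e})) i).val • e

theorem ind_empty : ind N (∅ : Set I) = 0 := by
  unfold ind
  rw [Set.indicator_empty]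
  rfl

theorem lift_eq_sum (π : (I → ZMod N) →+ (I → ZMod N)) (φ : I → C) (s : Finset C)
    (hs : ∀ i, φ i ∈ s) (i : I) :
    lift N π φ i = ∑ e ∈ s, (π (ind N (φ ⁻¹' {e})) i).val • e := by
  unfold lift
  apply finsum_eq_sum_of_support_subset
  intro e he
  by_contra h
  apply he
  have : φ ⁻¹' {e} = ∅ := by
    ext j
    simp only [Set.mem_preimage, Set.mem_singleton_iff, Set.mem_empty_iff_false, iff_false]
    rintro rfl
    exact h (hs j)
  show (π (ind N (φ ⁻¹' {e})) i).val • e = 0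
  rw [this, ind_empty, map_zero]
  simp

theorem lift_comp [NeZero N] {T : Type} (π : (I → ZMod N) →+ (I → ZMod N)) (χ : I → T)
    (s : Finset T) (hs : ∀ i, χ i ∈ s) (g : T → C) (hg : ∀ t ∈ s, N • g t = 0) (i : I) :
    lift N π (g ∘ χ) i = ∑ t ∈ s, (π (ind N (χ ⁻¹' {t})) i).val • g t := by
  classical
  rw [lift_eq_sum N π (g ∘ χ) (s.image g) (fun j => Finset.mem_image_of_mem g (hs j)),
    ← Finset.sum_fiberwise_of_maps_to (s := s) (t := s.image g) (g := g)
      (fun t ht => Finset.mem_image_of_mem g ht)]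
  apply Finset.sum_congr rfl
  intro e he
  obtain ⟨t0, ht0, rfl⟩ := Finset.mem_image.1 he
  have h1 : ind N ((g ∘ χ) ⁻¹' {g t0}) =
      ∑ t ∈ s.filter (fun t => g t = g t0), ind N (χ ⁻¹' {t}) := by
    funext j
    rw [Finset.sum_apply]
    unfold ind
    by_cases h : g (χ j) = g t0
    · rw [Set.indicator_of_mem (by simpa using h), Finset.sum_eq_single (χ j)]
      · rw [Set.indicator_of_mem (by simp)]
      · intro t _ ht
        rw [Set.indicator_of_notMem (by simpa using ht.symm)]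
      · intro h2
        exact absurd (Finset.mem_filter.2 ⟨hs j, h⟩) h2
    · rw [Set.indicator_of_notMem (by simpa using h)]
      symm
      apply Finset.sum_eq_zero
      intro t ht
      rw [Set.indicator_of_notMem]
      intro h2
      apply h
      have h3 : χ j = t := h2
      rw [h3]
      exact (Finset.mem_filter.1 ht).2
  rw [h1, map_sum, Finset.sum_apply, ← sm_apply N _ (hg t0 ht0), map_sum]
  apply Finset.sum_congr rfl
  intro t ht
  rw [sm_apply, (Finset.mem_filter.1 ht).2]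

theorem lift_add [NeZero N] (π : (I → ZMod N) →+ (I → ZMod N)) (φ ψ : I → C)
    (hφ : (Set.range φ).Finite) (hψ : (Set.range ψ).Finite) (hφN : ∀ i, N • φ i = 0)
    (hψN : ∀ i, N • ψ i = 0) (i : I) :
    lift N π (φ + ψ) i = lift N π φ i + lift N π ψ i := by
  let χ : I → C × C := fun j => (φ j, ψ j)
  have hχ : (Set.range χ).Finite := by
    refine (hφ.prod hψ).subset ?_
    rintro _ ⟨j, rfl⟩
    exact ⟨⟨j, rfl⟩, ⟨j, rfl⟩⟩
  have hs : ∀ j, χ j ∈ hχ.toFinset := fun j => hχ.mem_toFinset.2 ⟨j, rfl⟩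
  have h1 : ∀ t ∈ hχ.toFinset, N • t.1 = 0 := by
    intro t ht
    obtain ⟨j, rfl⟩ := hχ.mem_toFinset.1 ht
    exact hφN j
  have h2 : ∀ t ∈ hχ.toFinset, N • t.2 = 0 := by
    intro t ht
    obtain ⟨j, rfl⟩ := hχ.mem_toFinset.1 ht
    exact hψN j
  have e1 := lift_comp N π χ _ hs Prod.fst h1 i
  have e2 := lift_comp N π χ _ hs Prod.snd h2 i
  have e3 := lift_comp N π χ _ hs (fun t => t.1 + t.2)
    (fun t ht => by rw [smul_add, h1 t ht, h2 t ht, add_zero]) i
  have a1 : φ = Prod.fst ∘ χ := rfl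
  have a2 : ψ = Prod.snd ∘ χ := rfl
  have a3 : φ + ψ = (fun t : C × C => t.1 + t.2) ∘ χ := rfl
  rw [a3, e3]
  conv_rhs => rw [a1, a2, e1, e2]
  rw [← Finset.sum_add_distrib]
  apply Finset.sum_congr rfl
  intro t _
  rw [smul_add]

theorem lift_zero (π : (I → ZMod N) →+ (I → ZMod N)) (i : I) :
    lift N π (0 : I → C) i = 0 := by
  rw [lift_eq_sum N π 0 {0} (fun j => by simp)]
  simp

theorem lift_smul [NeZero N] (π : (I → ZMod N) →+ (I → ZMod N)) (f : I → ZMod N) (a : C)
    (ha : N • a = 0) (i : I) :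
    lift N π (fun j => (f j).val • a) i = (π f i).val • a := by
  have e1 := lift_comp N π f Finset.univ (fun _ => Finset.mem_univ _) (fun t => t.val • a)
    (fun t _ => by rw [smul_comm, ha, smul_zero]) i
  have a1 : (fun j => (f j).val • a) = (fun t : ZMod N => t.val • a) ∘ f := rfl
  rw [a1, e1]
  have h1 : f = ∑ t : ZMod N, t.val • ind N (f ⁻¹' {t}) := by
    funext j
    rw [Finset.sum_apply, Finset.sum_eq_single (f j)]
    · unfold ind
      rw [Pi.smul_apply, Set.indicator_of_mem (by simp)]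
      simp
    · intro t _ ht
      unfold ind
      rw [Pi.smul_apply, Set.indicator_of_notMem (by simpa using ht.symm), smul_zero]
    · intro h
      exact absurd (Finset.mem_univ _) h
  conv_rhs => rw [h1, map_sum, Finset.sum_apply, ← sm_apply N a ha, map_sum]
  apply Finset.sum_congr rfl
  intro t _
  rw [map_nsmul, Pi.smul_apply, map_nsmul, sm_apply, smul_comm]

theorem lift_sum [NeZero N] {J : Type} (π : (I → ZMod N) →+ (I → ZMod N)) (s : Finset J)
    (f : J → I → ZMod N) (a : J → C) (ha : ∀ j ∈ s, N • a j = 0) (i : I) :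
    lift N π (fun l => ∑ j ∈ s, (f j l).val • a j) i = ∑ j ∈ s, (π (f j) i).val • a j := by
  classical
  induction s using Finset.induction_on with
  | empty =>
    simp only [Finset.sum_empty]
    exact lift_zero N π i
  | insert j s hj ih =>
    have h1 : (fun l => ∑ j ∈ insert j s, (f j l).val • a j) =
        (fun l => (f j l).val • a j) + (fun l => ∑ j ∈ s, (f j l).val • a j) := by
      funext l
      rw [Finset.sum_insert hj]
      rfl
    have ha' : ∀ j' ∈ s, N • a j' = 0 := fun j' h => ha j' (Finset.mem_insert_of_mem h)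
    have haj := ha j (Finset.mem_insert_self _ _)
    rw [h1, lift_add, lift_smul N π _ _ haj, ih ha', Finset.sum_insert hj]
    · refine (Set.finite_range (fun t : ZMod N => t.val • a j)).subset ?_
      rintro _ ⟨l, rfl⟩
      exact ⟨f j l, rfl⟩
    · refine (Set.finite_range (fun t : s → ZMod N => ∑ j : s, (t j).val • a j.1)).subset ?_
      rintro _ ⟨l, rfl⟩
      refine ⟨fun j => f j.1 l, ?_⟩
      exact Finset.sum_coe_sort s (fun j => (f j l).val • a j)
    · intro l
      rw [smul_comm, haj, smul_zero]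
    · intro l
      rw [Finset.smul_sum]
      apply Finset.sum_eq_zero
      intro j' hj'
      rw [smul_comm, ha' j' hj', smul_zero]

theorem lift_lift [NeZero N] (π π' : (I → ZMod N) →+ (I → ZMod N)) (φ : I → C)
    (hφ : (Set.range φ).Finite) (hφN : ∀ i, N • φ i = 0) (i : I) :
    lift N π (lift N π' φ) i = lift N (π.comp π') φ i := by
  have hs : ∀ j, φ j ∈ hφ.toFinset := fun j => hφ.mem_toFinset.2 ⟨j, rfl⟩
  have h1 : lift N π' φ = fun l => ∑ e ∈ hφ.toFinset, (π' (ind N (φ ⁻¹' {e})) l).val • e :=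
    funext (fun l => lift_eq_sum N π' φ _ hs l)
  rw [h1, lift_sum N π hφ.toFinset (fun e => π' (ind N (φ ⁻¹' {e}))) (fun e => e),
    lift_eq_sum N _ φ _ hs]
  · rfl
  · intro e he
    obtain ⟨j, rfl⟩ := hφ.mem_toFinset.1 he
    exact hφN j

theorem lift_mem (π : (I → ZMod N) →+ (I → ZMod N)) (φ : I → C) (hφ : (Set.range φ).Finite)
    (E : AddSubgroup C) (i : I)
    (h : ∀ e ∈ Set.range φ, e ≠ 0 → π (ind N (φ ⁻¹' {e})) i ≠ 0 → e ∈ E) :
    lift N π φ i ∈ E := by
  rw [lift_eq_sum N π φ hφ.toFinset (fun j => hφ.mem_toFinset.2 ⟨j, rfl⟩)]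
  apply sum_mem
  intro e he
  by_cases h0 : e = 0
  · rw [h0, smul_zero]; exact zero_mem _
  · by_cases h1 : π (ind N (φ ⁻¹' {e})) i = 0
    · rw [h1, ZMod.val_zero, zero_smul]; exact zero_mem _
    · exact nsmul_mem (h e (hφ.mem_toFinset.1 he) h0 h1) _

theorem lift_fix [NeZero N] (π : (I → ZMod N) →+ (I → ZMod N)) (φ : I → C)
    (hφ : (Set.range φ).Finite) (hφN : ∀ i, N • φ i = 0) (i : I)
    (h : ∀ e ∈ Set.range φ, e ≠ 0 → π (ind N (φ ⁻¹' {e})) i = ind N (φ ⁻¹' {e}) i) :
    lift N π φ i = φ i := by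
  rw [lift_eq_sum N π φ hφ.toFinset (fun j => hφ.mem_toFinset.2 ⟨j, rfl⟩),
    Finset.sum_eq_single (φ i)]
  · by_cases h0 : φ i = 0
    · rw [h0, smul_zero]
    · rw [h _ ⟨i, rfl⟩ h0]
      unfold ind
      rw [Set.indicator_of_mem (by simp), Pi.one_apply, ← sm_apply N _ (hφN i)]
      have : (1 : ZMod N) = ((1 : ℕ) : ZMod N) := by simp
      rw [this, sm_apply, ZMod.val_natCast, ← nsmul_eq_mod_nsmul _ (hφN i), one_smul]
  · intro e he hne
    by_cases h0 : e = 0
    · rw [h0, smul_zero]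
    · rw [h e (hφ.mem_toFinset.1 he) h0]
      unfold ind
      rw [Set.indicator_of_notMem (by simpa using hne.symm), ZMod.val_zero, zero_smul]
  · intro h2
    exact absurd (hφ.mem_toFinset.2 ⟨i, rfl⟩) h2

end lift

section levels

variable {I C : Type} [AddCommGroup C] (F : I → AddSubgroup C)

/-- finite valued sections -/
def VV : AddSubgroup (I → C) where
  carrier := {φ | (Set.range φ).Finite ∧ ∀ i, φ i ∈ F i}
  zero_mem' := by
    refine ⟨(Set.finite_singleton 0).subset ?_, fun i => zero_mem _⟩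
    rintro _ ⟨i, rfl⟩
    rfl
  add_mem' := by
    rintro φ ψ ⟨h1, h2⟩ ⟨h3, h4⟩
    refine ⟨((h1.prod h3).image (fun t => t.1 + t.2)).subset ?_, fun i => add_mem (h2 i) (h4 i)⟩
    rintro _ ⟨i, rfl⟩
    exact ⟨(φ i, ψ i), ⟨⟨i, rfl⟩, ⟨i, rfl⟩⟩, rfl⟩
  neg_mem' := by
    rintro φ ⟨h1, h2⟩
    refine ⟨(h1.image (fun t => -t)).subset ?_, fun i => neg_mem (h2 i)⟩
    rintro _ ⟨i, rfl⟩
    exact ⟨φ i, ⟨i, rfl⟩, rfl⟩

/-- the level of an index -/
noncomputable def lev (i : I) : ℕ := Nat.card (F i) - 1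

/-- indices of a given level -/
def LS (k : ℕ) : Set I := {i | lev F i = k}

/-- indices whose group contains a given element -/
def SS (c : C) : Set I := {i | c ∈ F i}

/-- families of operators -/
abbrev Op (I : Type) : Type := (k : ℕ) → ((I → ZMod (k + 1)) →+ (I → ZMod (k + 1)))

/-- operators respecting the supports -/
structure OK (π : Op I) : Prop where
  supp : ∀ k f i, π k f i ≠ 0 → i ∈ LS F k
  pres : ∀ k f c, (∀ i ∈ LS F k, f i ≠ 0 → i ∈ SS F c) → ∀ i, π k f i ≠ 0 → i ∈ SS F c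

/-- the extension to group valued functions -/
noncomputable def LLf (π : Op I) (φ : I → C) (i : I) : C :=
  lift (lev F i + 1) (π (lev F i)) ((LS F (lev F i)).indicator φ) i

variable {F}

theorem card_lev (hF : ∀ i, (F i : Set C).Finite) (i : I) : Nat.card (F i) = lev F i + 1 := by
  have : Finite (F i) := (hF i).to_subtype
  have := Nat.card_pos (α := F i)
  unfold lev
  omega

theorem lev_bound (hF : ∀ i, (F i : Set C).Finite) (k : ℕ) :
    ∀ i ∈ LS F k, ∀ u : Finset C, (∀ c ∈ u, i ∈ SS F c) → u.card ≤ k + 1 := by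
  intro i hi u hu
  have h1 : lev F i = k := hi
  rw [← h1, ← card_lev hF i]
  have h2 : (u : Set C).ncard ≤ (F i : Set C).ncard :=
    Set.ncard_le_ncard (fun c hc => hu c hc) (hF i)
  rw [Set.ncard_coe_finset] at h2
  exact h2

theorem cut_finite {φ : I → C} (hφ : (Set.range φ).Finite) (S : Set I) :
    (Set.range (S.indicator φ)).Finite := by
  refine (hφ.insert 0).subset ?_
  rintro _ ⟨i, rfl⟩
  by_cases h : i ∈ S
  · rw [Set.indicator_of_mem h]; exact Or.inr ⟨i, rfl⟩
  · rw [Set.indicator_of_notMem h]; exact Or.inl rfl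

theorem cut_tors (hF : ∀ i, (F i : Set C).Finite) {φ : I → C} (hφ : ∀ i, φ i ∈ F i) (k : ℕ)
    (i : I) : (k + 1) • (LS F k).indicator φ i = 0 := by
  by_cases h : i ∈ LS F k
  · rw [Set.indicator_of_mem h]
    have h1 : lev F i = k := h
    rw [← h1, ← card_lev hF i]
    have h2 : Nat.card (F i) • (⟨φ i, hφ i⟩ : F i) = 0 := card_nsmul_eq_zero'
    exact congrArg Subtype.val h2
  · rw [Set.indicator_of_notMem h, smul_zero]

theorem cut_ind {φ : I → C} {S : Set I} {e : C} (he : e ≠ 0) {N : ℕ} {j : I}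
    (h : ind N ((S.indicator φ) ⁻¹' {e}) j ≠ 0) : j ∈ S ∧ φ j = e := by
  have h1 : S.indicator φ j = e := by
    by_contra h2
    apply h
    unfold ind
    exact Set.indicator_of_notMem (s := (S.indicator φ) ⁻¹' {e}) h2 _
  by_cases h3 : j ∈ S
  · rw [Set.indicator_of_mem h3] at h1
    exact ⟨h3, h1⟩
  · rw [Set.indicator_of_notMem h3] at h1
    exact absurd h1.symm he

theorem cut_range {φ : I → C} {S : Set I} {e : C} (he : e ≠ 0)
    (h : e ∈ Set.range (S.indicator φ)) : e ∈ Set.range φ := by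
  obtain ⟨j, rfl⟩ := h
  by_cases h3 : j ∈ S
  · rw [Set.indicator_of_mem h3]; exact ⟨j, rfl⟩
  · rw [Set.indicator_of_notMem h3] at he
    exact absurd rfl he

theorem LLf_mem (π : Op I) {φ : I → C} (hφ : (Set.range φ).Finite) (E : AddSubgroup C)
    (hE : ∀ j, φ j ∈ E) (i : I) : LLf F π φ i ∈ E := by
  apply lift_mem _ _ _ (cut_finite hφ _)
  intro e he h0 _
  obtain ⟨j, rfl⟩ := cut_range h0 he
  exact hE j

theorem fin_closure (ht : ∀ c : C, ∃ n : ℕ, 0 < n ∧ n • c = 0) (s : Set C) (hs : s.Finite) :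
    (AddSubgroup.closure s : Set C).Finite := by
  have : Finite s := hs.to_subtype
  have h1 : Finite (AddSubgroup.closure s) := by
    apply AddCommGroup.finite_of_fg_isAddTorsion
    intro a
    obtain ⟨n, hn, hna⟩ := ht a.1
    exact isOfFinAddOrder_iff_nsmul_eq_zero.2 ⟨n, hn, Subtype.ext hna⟩
  exact Set.toFinite _

theorem LLf_VV (ht : ∀ c : C, ∃ n : ℕ, 0 < n ∧ n • c = 0) {π : Op I} (hπ : OK F π)
    {φ : I → C} (hφ : φ ∈ VV F) : LLf F π φ ∈ VV F := by
  constructor
  · refine (fin_closure ht _ hφ.1).subset ?_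
    rintro _ ⟨i, rfl⟩
    exact LLf_mem π hφ.1 _ (fun j => AddSubgroup.subset_closure (Set.mem_range_self j)) i
  · intro i
    apply lift_mem _ _ _ (cut_finite hφ.1 _)
    intro e _ h0 h1
    refine hπ.pres _ _ e (fun j _ hj => ?_) i h1
    have h2 := (cut_ind h0 hj).2
    show e ∈ F j
    rw [← h2]
    exact hφ.2 j

/-- the extension as an endomorphism -/
noncomputable def LL (hF : ∀ i, (F i : Set C).Finite)
    (ht : ∀ c : C, ∃ n : ℕ, 0 < n ∧ n • c = 0) {π : Op I} (hπ : OK F π) : VV F →+ VV F :=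
  AddMonoidHom.mk' (fun φ => ⟨LLf F π φ.1, LLf_VV ht hπ φ.2⟩) (by
    intro φ ψ
    apply Subtype.ext
    funext i
    show LLf F π (φ.1 + ψ.1) i = LLf F π φ.1 i + LLf F π ψ.1 i
    unfold LLf
    rw [Set.indicator_add', lift_add _ _ _ _ (cut_finite φ.2.1 _) (cut_finite ψ.2.1 _)
      (cut_tors hF φ.2.2 _) (cut_tors hF ψ.2.2 _)])

theorem LL_apply (hF : ∀ i, (F i : Set C).Finite)
    (ht : ∀ c : C, ∃ n : ℕ, 0 < n ∧ n • c = 0) {π : Op I} (hπ : OK F π) (φ : VV F) (i : I) :
    (LL hF ht hπ φ).1 i = LLf F π φ.1 i := rfl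

theorem LLf_comp (hF : ∀ i, (F i : Set C).Finite) (π : Op I) {π' : Op I} (hπ' : OK F π')
    {φ : I → C} (hφ : φ ∈ VV F) (i : I) :
    LLf F π (LLf F π' φ) i = LLf F (fun k => (π k).comp (π' k)) φ i := by
  have h1 : ∀ k, (LS F k).indicator (LLf F π' φ) =
      lift (k + 1) (π' k) ((LS F k).indicator φ) := by
    intro k
    funext j
    by_cases h : j ∈ LS F k
    · rw [Set.indicator_of_mem h]
      have h2 : lev F j = k := h
      subst h2
      rfl
    · rw [Set.indicator_of_notMem h]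
      have h2 := lift_mem (k + 1) (π' k) _ (cut_finite hφ.1 (LS F k)) ⊥ j
        (fun e _ _ h3 => absurd (hπ'.supp _ _ _ h3) h)
      exact (AddSubgroup.mem_bot.1 h2).symm
  unfold LLf
  have h3 := h1 (lev F i)
  unfold LLf at h3
  rw [h3, lift_lift _ _ _ _ (cut_finite hφ.1 _) (cut_tors hF hφ.2 _)]

theorem LLf_fix (hF : ∀ i, (F i : Set C).Finite) (π : Op I) {φ : I → C} (hφ : φ ∈ VV F)
    (h : ∀ k, ∀ e ∈ Set.range φ, e ≠ 0 →
      π k (ind (k + 1) (((LS F k).indicator φ) ⁻¹' {e})) =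
        ind (k + 1) (((LS F k).indicator φ) ⁻¹' {e})) (i : I) :
    LLf F π φ i = φ i := by
  unfold LLf
  rw [lift_fix _ _ _ (cut_finite hφ.1 _) (cut_tors hF hφ.2 _)]
  · exact Set.indicator_of_mem (show i ∈ LS F (lev F i) from rfl) _
  · intro e he h0
    rw [h _ e (cut_range h0 he) h0]

theorem cut_ind_ind {φ : I → C} {S : Set I} {e : C} (he : e ≠ 0) (N : ℕ) :
    S.indicator (ind N ((S.indicator φ) ⁻¹' {e})) = ind N ((S.indicator φ) ⁻¹' {e}) := by
  funext j
  by_cases h : j ∈ S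
  · rw [Set.indicator_of_mem h]
  · rw [Set.indicator_of_notMem h]
    by_contra h2
    exact h (cut_ind he (fun h3 => h2 h3.symm)).1

end levels

end Pool.Agent.H54Z.FC
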