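import Pool.Agent.H54Z.FC.Gam

/-!
# The central quotient of an FC-group which is residually (finite derived subgroup)
-/

set_option autoImplicit false

namespace Pool.Agent.H54Z.FC

open Pool.Agent.Helper316 Pool.Agent.Helper316.FCV

section main

variable {G : Type} [Group G]

theorem Gam_SDF (hFC : FCG G) (hR : FCX.ResX G) : FCZ.FC.SDF (Gam G) := by
  classical
  obtain ⟨Ω', lI, lV, F', hF', hlI, hlV, hA⟩ := thmA (FI_finite hFC) (CC_tors hFC) (CC_haus hR)
  have hw : ∀ x : MulAut G, ∃ g : G, (∃ g', dl x g' ∉ Subgroup.center G) →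
      dl x g ∉ Subgroup.center G := by
    intro x
    by_cases h : ∃ g', dl x g' ∉ Subgroup.center G
    · obtain ⟨g, hg⟩ := h
      exact ⟨g, fun _ => hg⟩
    · exact ⟨1, fun h' => absurd h' h⟩
  choose w hw using hw
  let link : Om G ⊕ Ω' → Set (Om G ⊕ Ω') := fun a =>
    match a with
    | Sum.inl (Sum.inl _) => ∅
    | Sum.inl (Sum.inr x) => {Sum.inl (Sum.inl (w x))} ∪
        {o | ∃ hx : x ∈ XX G, o = Sum.inr (lV (psi x hx))}
    | Sum.inr ω => {o | ∃ i, lI i = ω ∧ o = Sum.inl (Sum.inl (rp i))}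
  have hlink : ∀ a, (link a).Countable := by
    rintro ((g | x) | ω)
    · exact Set.countable_empty
    · refine (Set.countable_singleton _).union (Set.Subsingleton.countable ?_)
      rintro _ ⟨h, rfl⟩ _ ⟨h', rfl⟩
      rfl
    · apply Set.Subsingleton.countable
      rintro _ ⟨i, hi, rfl⟩ _ ⟨j, hj, rfl⟩
      rw [hlI (hi.trans hj.symm)]
  let FT : Finset (Om G ⊕ Ω') → Set (Om G ⊕ Ω') := fun s =>
    Sum.inl '' FF hFC (s.preimage Sum.inl Sum.inl_injective.injOn) ∪
      Sum.inr '' F' (s.preimage Sum.inr Sum.inr_injective.injOn) ∪ ⋃ a ∈ s, link a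
  have hFT : ∀ s, (FT s).Countable := fun s =>
    (((FF_countable hFC _).image _).union ((hF' _).image _)).union
      (Set.Countable.biUnion s.countable_toSet (fun a _ => hlink a))
  have hsys : ∀ M, FCZ.FC.Closed FT M →
      Sys hFC (Sum.inl ⁻¹' M) {v | Sum.inr (lV v) ∈ M} := by
    intro M hM
    have h1 : Closed (FF hFC) (Sum.inl ⁻¹' M) := by
      intro s hs x hx
      apply hM (s.map ⟨Sum.inl, Sum.inl_injective⟩) (by
        intro y hy
        obtain ⟨a, ha, rfl⟩ := Finset.mem_map.1 hy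
        exact hs ha)
      refine Or.inl (Or.inl ⟨x, ?_, rfl⟩)
      have e : (s.map ⟨Sum.inl, Sum.inl_injective⟩ : Finset (Om G ⊕ Ω')).preimage Sum.inl
          Sum.inl_injective.injOn = s := Finset.preimage_map ⟨Sum.inl, Sum.inl_injective⟩ s
      rw [e]
      exact hx
    have h2 : Closed F' (Sum.inr ⁻¹' M) := by
      intro s hs x hx
      apply hM (s.map ⟨Sum.inr, Sum.inr_injective⟩) (by
        intro y hy
        obtain ⟨a, ha, rfl⟩ := Finset.mem_map.1 hy
        exact hs ha)
      refine Or.inl (Or.inr ⟨x, ?_, rfl⟩)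
      have e : (s.map ⟨Sum.inr, Sum.inr_injective⟩ : Finset (Om G ⊕ Ω')).preimage Sum.inr
          Sum.inr_injective.injOn = s := Finset.preimage_map ⟨Sum.inr, Sum.inr_injective⟩ s
      rw [e]
      exact hx
    have h3 : ∀ a ∈ M, link a ⊆ M := by
      intro a ha x hx
      apply hM {a} (by simpa using ha)
      refine Or.inr ?_
      simp only [Set.mem_iUnion]
      exact ⟨a, by simp, hx⟩
    obtain ⟨h4, h5, r, h6, h7, h8⟩ := hA _ h2
    refine ⟨h1, h4, fun a ha b hb => h5 a b ha hb, ?_, ?_, r, h6, h7, ?_⟩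
    · intro k _ hk h g
      by_contra hg
      exact hw k ⟨g, hg⟩ (h _ (h3 _ hk (Or.inl rfl)))
    · intro k hk hkM
      exact h3 _ hkM (Or.inr ⟨hk, rfl⟩)
    · intro v hv
      apply h8
      intro i hi
      exact hv i (h3 _ hi ⟨i, rfl, rfl⟩)
  let P : Set (Om G ⊕ Ω') → Subgroup (Gam G) := fun M =>
    PG (Sum.inl ⁻¹' M) {v | Sum.inr (lV v) ∈ M}
  have h1 := FCZ.FC.SDF.of_system FT hFT P (fun M hM => PG_normal (hsys M hM)) (by
      intro M M' h
      apply Subgroup.map_mono
      apply Subgroup.closure_mono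
      rintro p ⟨hp, hp'⟩
      exact ⟨h hp, h hp'⟩) (by
      intro M hM x hx
      obtain ⟨p, hp, rfl⟩ := (mem_PG (hsys M hM) x).mp hx
      refine ⟨{Sum.inl (Sum.inr p.1.1), Sum.inr (lV (Multiplicative.toAdd p.2))}, ?_, ?_⟩
      · intro o ho
        simp only [Finset.coe_insert, Finset.coe_singleton, Set.mem_insert_iff,
          Set.mem_singleton_iff] at ho
        rcases ho with rfl | rfl
        · exact hp.1
        · exact hp.2
      · intro M' hM' hs
        exact (mem_PG (hsys M' hM') _).mpr ⟨p, ⟨hs (by simp), hs (by simp)⟩, rfl⟩)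
    (fun M hM => exRho (hsys M hM)) (by
      intro M hM hc
      have hPP : (PPset (Sum.inl ⁻¹' M) {v | Sum.inr (lV v) ∈ M}).Countable := by
        refine Set.Countable.mono (s₂ := (fun p : G0 G =>
          ((Sum.inl (Sum.inr p.1.1) : Om G ⊕ Ω'),
            (Sum.inr (lV (Multiplicative.toAdd p.2)) : Om G ⊕ Ω'))) ⁻¹' (M ×ˢ M))
          (fun p hp => ⟨hp.1, hp.2⟩) ?_
        apply (hc.prod hc).preimage_of_injOn
        intro p _ q _ hpq
        simp only [Prod.mk.injEq, Sum.inl.injEq, Sum.inr.injEq] at hpq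
        exact Prod.ext (Subtype.ext hpq.1) (Multiplicative.toAdd.injective (hlV hpq.2))
      have hcount : Countable (P M) := by
        have h1 := hPP.image (fun p => (QuotientGroup.mk p : Gam G))
        refine Set.Countable.mono ?_ h1
        intro x hx
        obtain ⟨p, hp, hpx⟩ := (mem_PG (hsys M hM) x).mp hx
        exact ⟨p, hp, hpx⟩
      apply FCZ.FC.SDF.of_countable
      · intro x
        obtain ⟨N, h1, h2, h3⟩ := Gam_lf hFC x.1
        refine ⟨N.subgroupOf (P M), ?_, ?_, h3⟩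
        · exact Subgroup.Normal.subgroupOf h1 _
        · exact Set.Finite.preimage (f := (Subtype.val : P M → Gam G))
            (Subtype.val_injective.injOn) h2
      · intro x hx
        obtain ⟨N, h1, h2, h3⟩ := Gam_rf hFC x.1 (fun h => hx (Subtype.ext h))
        exact ⟨N.subgroupOf (P M), Subgroup.Normal.subgroupOf h1 _, inferInstance, h3⟩)
    Set.univ (fun s _ => Set.subset_univ _)
  have h2 : ∀ x : Gam G, x ∈ P Set.univ := by
    intro x
    obtain ⟨p, rfl⟩ := QuotientGroup.mk_surjective x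
    exact (mem_PG (hsys _ (fun s _ => Set.subset_univ _)) _).mpr ⟨p, ⟨trivial, trivial⟩, rfl⟩
  let φ : Gam G →* P Set.univ :=
    { toFun := fun x => ⟨x, h2 x⟩
      map_one' := rfl
      map_mul' := fun _ _ => rfl }
  exact h1.comap φ (fun a b hab => congrArg Subtype.val hab)

theorem main (hFC : FCG G) (hR : FCX.ResX G) : FCZ.FC.SDF (G ⧸ Subgroup.center G) := by
  obtain ⟨ψ, hψ⟩ := FCX.exists_psi hFC
  let ι : XX G →* Gam G := (QuotientGroup.mk' (Del G)).comp (MonoidHom.inl _ _)
  have hι : Function.Injective ι := by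
    rw [injective_iff_map_eq_one]
    intro x hx
    have h1 : ((x, 1) : G0 G) ∈ Del G := (QuotientGroup.eq_one_iff _).1 hx
    apply Subtype.ext
    ext g
    obtain ⟨i, c, rfl⟩ := ex_rp g
    have h2 : chi (dl x.1 (rp i)) = 0 := by
      have := h1.2 i
      exact neg_eq_zero.1 this.symm
    have h3 : dl x.1 (rp i) = 1 := chi_sep ⟨h1.1 _, x.2.1.dl_comm _⟩ h2
    have h4 : dl x.1 (c⁻¹ * rp i * c) = 1 := by
      rw [dl_class (h1.1 _) (h1.1 _), h3]
    rw [dl_eq x.1, h4, mul_one]
    rfl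
  exact (Gam_SDF hFC hR).comap (ι.comp ψ) (hι.comp hψ)

theorem fcg_of_index (hFC : ∀ x : G, (Subgroup.centralizer ({x} : Set G)).FiniteIndex) :
    FCG G := by
  intro g
  have := hFC g
  refine (Set.finite_range (fun q : G ⧸ Subgroup.centralizer ({g} : Set G) =>
    q.out * g * q.out⁻¹)).subset ?_
  intro h hh
  obtain ⟨c, hc⟩ := isConj_iff.1 hh
  refine ⟨QuotientGroup.mk c, ?_⟩
  obtain ⟨z, hz⟩ := QuotientGroup.mk_out_eq_mul (Subgroup.centralizer ({g} : Set G)) c
  have h2 := Subgroup.mem_centralizer_singleton_iff.1 z.2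
  show (QuotientGroup.mk c : G ⧸ Subgroup.centralizer ({g} : Set G)).out * g *
    (QuotientGroup.mk c : G ⧸ Subgroup.centralizer ({g} : Set G)).out⁻¹ = h
  rw [hz, ← hc, mul_assoc c, h2]
  group

end main

end Pool.Agent.H54Z.FC
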