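import Pool.Agent.Helper316.FCZ

/-!
# Decomposition of functions according to the sets containing their supports
-/

set_option autoImplicit false

namespace Pool.Agent.H54Z.FC

open Pool.Agent.Helper316

section level

variable {I C : Type} (N : ℕ) (S0 : Set I) (S : C → Set I)

/-- functions supported in `S0` and in all `S c`, `c ∈ u` -/
def JJ (u : Finset C) : Submodule (ZMod N) (I → ZMod N) where
  carrier := {f | ∀ i, f i ≠ 0 → i ∈ S0 ∧ ∀ c ∈ u, i ∈ S c}
  zero_mem' := fun i h => absurd rfl h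
  add_mem' := by
    intro f g hf hg i hi
    by_cases h : f i = 0
    · apply hg i
      intro h2
      apply hi
      show f i + g i = 0
      rw [h, h2, add_zero]
    · exact hf i h
  smul_mem' := by
    intro r f hf i hi
    apply hf i
    intro h
    apply hi
    show r * f i = 0
    rw [h, mul_zero]

theorem mem_JJ {u : Finset C} {f : I → ZMod N} :
    f ∈ JJ N S0 S u ↔ ∀ i, f i ≠ 0 → i ∈ S0 ∧ ∀ c ∈ u, i ∈ S c := Iff.rfl

/-- elements of `JJ u` supported in finitely many further sets -/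
def JP (u : Finset C) : Submodule (ZMod N) (I → ZMod N) where
  carrier := {f | f ∈ JJ N S0 S u ∧
    ∃ t : Finset C, (∀ c ∈ t, c ∉ u) ∧ ∀ i, f i ≠ 0 → ∃ c ∈ t, i ∈ S c}
  zero_mem' := ⟨zero_mem _, ∅, by simp, fun i h => absurd rfl h⟩
  add_mem' := by
    classical
    rintro f g ⟨hf, t, ht, ht'⟩ ⟨hg, s, hs, hs'⟩
    refine ⟨add_mem hf hg, t ∪ s, ?_, ?_⟩
    · intro c hc
      rcases Finset.mem_union.1 hc with h | h
      · exact ht c h
      · exact hs c h
    · intro i hi
      by_cases h : f i = 0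
      · have h2 : g i ≠ 0 := by
          intro h2
          apply hi
          show f i + g i = 0
          rw [h, h2, add_zero]
        obtain ⟨c, hc, hc'⟩ := hs' i h2
        exact ⟨c, Finset.mem_union_right _ hc, hc'⟩
      · obtain ⟨c, hc, hc'⟩ := ht' i h
        exact ⟨c, Finset.mem_union_left _ hc, hc'⟩
  smul_mem' := by
    rintro r f ⟨hf, t, ht, ht'⟩
    refine ⟨Submodule.smul_mem _ r hf, t, ht, fun i hi => ht' i ?_⟩
    intro h
    apply hi
    show r * f i = 0
    rw [h, mul_zero]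

theorem mem_JP {u : Finset C} {f : I → ZMod N} :
    f ∈ JP N S0 S u ↔ f ∈ JJ N S0 S u ∧
      ∃ t : Finset C, (∀ c ∈ t, c ∉ u) ∧ ∀ i, f i ≠ 0 → ∃ c ∈ t, i ∈ S c := Iff.rfl

/-- closed under composition with maps fixing zero -/
def PC (E : Submodule (ZMod N) (I → ZMod N)) : Prop :=
  ∀ e ∈ E, ∀ φ : ZMod N → ZMod N, φ 0 = 0 → (fun g => φ (e g)) ∈ E

theorem PC.inf {E E' : Submodule (ZMod N) (I → ZMod N)} (h : PC N E) (h' : PC N E') :
    PC N (E ⊓ E') := fun e he φ h0 => ⟨h e he.1 φ h0, h' e he.2 φ h0⟩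

theorem JJ_PC (u : Finset C) : PC N (JJ N S0 S u) := by
  intro e he φ h0 i hi
  apply he i
  intro h
  apply hi
  show φ (e i) = 0
  rw [h, h0]

theorem JP_PC (u : Finset C) : PC N (JP N S0 S u) := by
  rintro e ⟨he, t, ht, ht'⟩ φ h0
  refine ⟨JJ_PC N S0 S u e he φ h0, t, ht, fun i hi => ht' i ?_⟩
  intro h
  apply hi
  show φ (e i) = 0
  rw [h, h0]

theorem exists_retr [NeZero N] (E : Submodule (ZMod N) (I → ZMod N)) (hE : PC N E) :
    ∃ r : (I → ZMod N) →ₗ[ZMod N] (I → ZMod N), (∀ f, r f ∈ E) ∧ ∀ e ∈ E, r e = e := by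
  have := FCZ.FC.injective_of_closed N E hE
  obtain ⟨h, hh⟩ := this.out E.subtype E.injective_subtype LinearMap.id
  refine ⟨E.subtype.comp h, fun f => (h f).2, fun e he => ?_⟩
  have := hh ⟨e, he⟩
  exact congrArg Subtype.val this

theorem exists_eps [NeZero N] (E : Submodule (ZMod N) (I → ZMod N)) (hE : PC N E)
    (u : Finset C) :
    ∃ ε : (I → ZMod N) →ₗ[ZMod N] (I → ZMod N), (∀ f, ε f ∈ JP N S0 S u) ∧
      (∀ f ∈ JP N S0 S u, ε f = f) ∧ ∀ f ∈ E, f ∈ JJ N S0 S u → ε f ∈ E := by
  obtain ⟨β, hβ1, hβ2⟩ := exists_retr N (E ⊓ JP N S0 S u) (hE.inf N (JP_PC N S0 S u))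
  let f1 : (I → ZMod N) →ₗ.[ZMod N] (JP N S0 S u) := ⟨JP N S0 S u, LinearMap.id⟩
  let f2 : (I → ZMod N) →ₗ.[ZMod N] (JP N S0 S u) := ⟨E ⊓ JJ N S0 S u,
    (β.codRestrict (JP N S0 S u) (fun f => (hβ1 f).2)).domRestrict _⟩
  have hagree : ∀ (x : f1.domain) (y : f2.domain), (x : I → ZMod N) = y → f1 x = f2 y := by
    intro x y hxy
    apply Subtype.ext
    show (x : I → ZMod N) = β y
    rw [hβ2 y ⟨y.2.1, by rw [← hxy]; exact x.2⟩, hxy]
  let g := f1.sup f2 hagree
  have hinj := FCZ.FC.injective_of_closed N (JP N S0 S u) (JP_PC N S0 S u)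
  obtain ⟨h, hh⟩ := hinj.out g.domain.subtype g.domain.injective_subtype g.toFun
  refine ⟨(JP N S0 S u).subtype.comp h, fun f => (h f).2, fun f hf => ?_, fun f hf hf' => ?_⟩
  · have hle := LinearPMap.left_le_sup f1 f2 hagree
    have h1 : f ∈ g.domain := hle.1 hf
    have h2 := hh ⟨f, h1⟩
    have h3 : f1 ⟨f, hf⟩ = g ⟨f, h1⟩ := hle.2 rfl
    show ((h f : JP N S0 S u) : I → ZMod N) = f
    have h4 : h f = g ⟨f, h1⟩ := h2
    rw [h4, ← h3]
    rfl
  · have hle := LinearPMap.right_le_sup f1 f2 hagree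
    have hf2 : f ∈ f2.domain := ⟨hf, hf'⟩
    have h1 : f ∈ g.domain := hle.1 hf2
    have h2 := hh ⟨f, h1⟩
    have h3 : f2 ⟨f, hf2⟩ = g ⟨f, h1⟩ := hle.2 rfl
    show ((h f : JP N S0 S u) : I → ZMod N) ∈ E
    have h4 : h f = g ⟨f, h1⟩ := h2
    rw [h4, ← h3]
    exact (hβ1 f).1

/-- the sum of the components -/
noncomputable def sg {U P : Type} [AddCommGroup P] : (U →₀ P) →+ P :=
  Finsupp.liftAddHom (fun _ => AddMonoidHom.id P)

theorem sg_apply {U P : Type} [AddCommGroup P] (d : U →₀ P) :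
    sg d = ∑ u ∈ d.support, d u := rfl

theorem sg_single {U P : Type} [AddCommGroup P] (u : U) (p : P) :
    sg (Finsupp.single u p) = p := by
  simp [sg]

theorem exists_dec [NeZero N] (k : ℕ)
    (hk : ∀ i ∈ S0, ∀ u : Finset C, (∀ c ∈ u, i ∈ S c) → u.card ≤ k)
    (E : Submodule (ZMod N) (I → ZMod N)) (hE : PC N E)
    (hI : ∀ e ∈ E, ∀ c, (S c).indicator e ∈ E) :
    ∃ z : (I → ZMod N) →+ (Finset C →₀ (I → ZMod N)),
      (∀ f u, z f u ∈ JJ N S0 S u) ∧
      (∀ f, sg (z f) = S0.indicator f) ∧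
      (∀ f c, (∀ i ∈ S0, f i ≠ 0 → i ∈ S c) → ∀ u, z f u ≠ 0 → c ∈ u) ∧
      (∀ f, S0.indicator f ∈ E → ∀ u, z f u ∈ E) ∧
      (∀ f (p : Finset C → Prop) [DecidablePred p],
        z (sg ((z f).filter p)) = (z f).filter p) := by
  classical
  choose ε hε1 hε2 hε3 using exists_eps N S0 S E hE
  let DZ : AddSubgroup (Finset C →₀ (I → ZMod N)) :=
    { carrier := {d | ∀ u, d u ∈ JJ N S0 S u ∧ ε u (d u) = 0}
      zero_mem' := fun u => ⟨zero_mem _, map_zero _⟩
      add_mem' := by
        intro a b ha hb u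
        refine ⟨add_mem (ha u).1 (hb u).1, ?_⟩
        show ε u (a u + b u) = 0
        rw [map_add, (ha u).2, (hb u).2, add_zero]
      neg_mem' := by
        intro a ha u
        refine ⟨neg_mem (ha u).1, ?_⟩
        show ε u (- a u) = 0
        rw [map_neg, (ha u).2, neg_zero] }
  have hinj : ∀ d ∈ DZ, sg d = 0 → d = 0 := by
    intro d hd h0
    by_contra hne
    have hsupp : d.support.Nonempty := Finsupp.support_nonempty_iff.2 hne
    obtain ⟨u, hu, hmin⟩ := d.support.exists_min_image Finset.card hsupp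
    have hc : ∀ u' ∈ d.support.erase u, ∃ c ∈ u', c ∉ u := by
      intro u' hu'
      by_contra hcon
      push Not at hcon
      have h1 : u' ⊆ u := hcon
      have h2 := hmin u' (Finset.mem_of_mem_erase hu')
      exact (Finset.ne_of_mem_erase hu') (Finset.eq_of_subset_of_card_le h1 h2)
    choose c hc1 hc2 using hc
    have hsum : d u + ∑ u' ∈ d.support.erase u, d u' = 0 := by
      rw [Finset.add_sum_erase _ _ hu]
      exact h0
    have hJP : d u ∈ JP N S0 S u := by
      refine ⟨(hd u).1, (d.support.erase u).attach.image (fun x => c x.1 x.2), ?_, ?_⟩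
      · intro x hx
        obtain ⟨y, _, rfl⟩ := Finset.mem_image.1 hx
        exact hc2 y.1 y.2
      · intro i hi
        have h1 : ∃ u' ∈ d.support.erase u, d u' i ≠ 0 := by
          by_contra hcon
          push Not at hcon
          apply hi
          have h2 := congrFun hsum i
          rw [Pi.add_apply, Finset.sum_apply, Finset.sum_eq_zero hcon, add_zero] at h2
          exact h2
        obtain ⟨u', hu', h2⟩ := h1
        refine ⟨c u' hu', Finset.mem_image.2 ⟨⟨u', hu'⟩, Finset.mem_attach _ _, rfl⟩, ?_⟩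
        exact ((hd u').1 i h2).2 _ (hc1 u' hu')
    have h3 := hε2 u _ hJP
    rw [(hd u).2] at h3
    exact (Finsupp.mem_support_iff.1 hu) h3.symm
  have hex : ∀ E' : Submodule (ZMod N) (I → ZMod N), (∀ e ∈ E', ∀ c, (S c).indicator e ∈ E') →
      (∀ u, ∀ f ∈ E', f ∈ JJ N S0 S u → ε u f ∈ E') →
      ∀ n, ∀ u : Finset C, k < u.card + n → ∀ f ∈ E', f ∈ JJ N S0 S u →
        ∃ d ∈ DZ, sg d = f ∧ ∀ u', (d u' ≠ 0 → u ⊆ u') ∧ d u' ∈ E' := by
    intro E' hI' hε' n
    induction n with
    | zero =>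
      intro u hu f _ hf
      refine ⟨0, zero_mem _, ?_, fun u' => ⟨fun h => absurd rfl h, zero_mem _⟩⟩
      rw [map_zero]
      funext i
      by_contra hne
      have h1 := hf i (fun h => hne h.symm)
      have h2 := hk i h1.1 u h1.2
      omega
    | succ n ih =>
      intro u hu f hfE hf
      have inner : ∀ t : Finset C, (∀ c ∈ t, c ∉ u) → ∀ g ∈ E', g ∈ JJ N S0 S u →
          (∀ i, g i ≠ 0 → ∃ c ∈ t, i ∈ S c) →
          ∃ d ∈ DZ, sg d = g ∧ ∀ u', (d u' ≠ 0 → u ⊆ u') ∧ d u' ∈ E' := by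
        intro t
        induction t using Finset.induction_on with
        | empty =>
          intro _ g _ _ hg
          refine ⟨0, zero_mem _, ?_, fun u' => ⟨fun h => absurd rfl h, zero_mem _⟩⟩
          rw [map_zero]
          funext i
          by_contra hne
          obtain ⟨c, hc, _⟩ := hg i (fun h => hne h.symm)
          simp at hc
        | insert c t hct iht =>
          intro ht g hgE hg hg'
          have hcu : c ∉ u := ht c (Finset.mem_insert_self _ _)
          have h1 : (S c).indicator g ∈ JJ N S0 S (insert c u) := by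
            intro i hi
            have hiS : i ∈ S c := by
              by_contra h
              exact hi (Set.indicator_of_notMem h _)
            rw [Set.indicator_of_mem hiS] at hi
            refine ⟨(hg i hi).1, fun c' hc' => ?_⟩
            rcases Finset.mem_insert.1 hc' with rfl | h
            · exact hiS
            · exact (hg i hi).2 c' h
          obtain ⟨d1, hd1, hs1, hp1⟩ := ih (insert c u)
            (by rw [Finset.card_insert_of_notMem hcu]; omega) _ (hI' g hgE c) h1
          have h2 : ∀ i, (g - (S c).indicator g) i ≠ 0 → g i ≠ 0 ∧ i ∉ S c := by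
            intro i hi
            by_cases h : i ∈ S c
            · exfalso
              apply hi
              rw [Pi.sub_apply, Set.indicator_of_mem h, sub_self]
            · refine ⟨fun h3 => hi ?_, h⟩
              rw [Pi.sub_apply, Set.indicator_of_notMem h, h3, sub_self]
          obtain ⟨d2, hd2, hs2, hp2⟩ := iht (fun c' hc' => ht c' (Finset.mem_insert_of_mem hc'))
            (g - (S c).indicator g) (sub_mem hgE (hI' g hgE c)) (fun i hi => hg i (h2 i hi).1) (by
              intro i hi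
              obtain ⟨c', hc', hc''⟩ := hg' i (h2 i hi).1
              rcases Finset.mem_insert.1 hc' with rfl | h
              · exact absurd hc'' (h2 i hi).2
              · exact ⟨c', h, hc''⟩)
          refine ⟨d1 + d2, add_mem hd1 hd2, ?_, fun u' => ⟨fun h => ?_, ?_⟩⟩
          · rw [map_add, hs1, hs2]; abel
          · by_cases h3 : d1 u' = 0
            · apply (hp2 u').1
              intro h4
              apply h
              show d1 u' + d2 u' = 0
              rw [h3, h4, add_zero]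
            · exact (Finset.subset_insert _ _).trans ((hp1 u').1 h3)
          · exact add_mem (hp1 u').2 (hp2 u').2
      obtain ⟨hJ, t, ht, ht'⟩ := hε1 u f
      obtain ⟨d2, hd2, hs2, hp2⟩ := inner t ht (ε u f) (hε' u f hfE hf) hJ ht'
      have hd1 : Finsupp.single u (f - ε u f) ∈ DZ := by
        intro u'
        by_cases h : u = u'
        · subst h
          rw [Finsupp.single_eq_same]
          refine ⟨sub_mem hf hJ, ?_⟩
          rw [map_sub, hε2 u _ (hε1 u f), sub_self]
        · rw [Finsupp.single_eq_of_ne (Ne.symm h)]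
          exact ⟨zero_mem _, map_zero _⟩
      refine ⟨Finsupp.single u (f - ε u f) + d2, add_mem hd1 hd2, ?_, fun u' => ⟨fun h => ?_, ?_⟩⟩
      · rw [map_add, hs2, sg_single]; abel
      · by_cases h3 : u = u'
        · exact h3 ▸ Finset.Subset.refl _
        · apply (hp2 u').1
          intro h4
          apply h
          rw [Finsupp.add_apply, Finsupp.single_eq_of_ne (Ne.symm h3), h4, add_zero]
      · rw [Finsupp.add_apply]
        refine add_mem ?_ (hp2 u').2
        by_cases h3 : u = u'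
        · subst h3
          rw [Finsupp.single_eq_same]
          exact sub_mem hfE (hε' u f hfE hf)
        · rw [Finsupp.single_eq_of_ne (Ne.symm h3)]
          exact zero_mem _
  have hind : ∀ f : I → ZMod N, S0.indicator f ∈ JJ N S0 S ∅ := by
    intro f i hi
    refine ⟨?_, by simp⟩
    by_contra h
    exact hi (Set.indicator_of_notMem h _)
  have hex0 : ∀ f : I → ZMod N, ∃ d ∈ DZ, sg d = S0.indicator f := by
    intro f
    obtain ⟨d, hd, hs, _⟩ := hex ⊤ (fun _ _ _ => trivial) (fun _ _ _ _ => trivial) (k + 1) ∅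
      (by simp) _ trivial (hind f)
    exact ⟨d, hd, hs⟩
  choose z0 hz1 hz2 using hex0
  have huniq : ∀ f, ∀ d ∈ DZ, sg d = S0.indicator f → z0 f = d := by
    intro f d hd hs
    have := hinj (z0 f - d) (sub_mem (hz1 f) hd) (by rw [map_sub, hz2, hs, sub_self])
    exact sub_eq_zero.1 this
  let z : (I → ZMod N) →+ (Finset C →₀ (I → ZMod N)) := AddMonoidHom.mk' z0 (by
    intro f g
    apply huniq _ _ (add_mem (hz1 f) (hz1 g))
    rw [map_add, hz2, hz2, Set.indicator_add'])
  have hz : ∀ f, z f = z0 f := fun f => rfl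
  refine ⟨z, fun f u => (hz1 f u).1, hz2, ?_, ?_, ?_⟩
  · intro f c hf u hu
    have h1 : S0.indicator f ∈ JJ N S0 S {c} := by
      intro i hi
      have hi0 : i ∈ S0 := (hind f i hi).1
      rw [Set.indicator_of_mem hi0] at hi
      refine ⟨hi0, fun c' hc' => ?_⟩
      rw [Finset.mem_singleton.1 hc']
      exact hf i hi0 hi
    obtain ⟨d, hd, hs, hp⟩ := hex ⊤ (fun _ _ _ => trivial) (fun _ _ _ _ => trivial) (k + 1) {c}
      (by simp; omega) _ trivial h1
    rw [hz, huniq f d hd hs] at hu
    exact (hp u).1 hu (Finset.mem_singleton_self c)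
  · intro f hf u
    obtain ⟨d, hd, hs, hp⟩ := hex E hI hε3 (k + 1) ∅ (by simp) _ hf (hind f)
    rw [hz, huniq f d hd hs]
    exact (hp u).2
  · intro f p _
    have hd : (z f).filter p ∈ DZ := by
      intro u
      rw [Finsupp.filter_apply]
      split_ifs
      · exact hz1 f u
      · exact ⟨zero_mem _, map_zero _⟩
    rw [hz]
    apply huniq _ _ hd
    funext i
    by_cases hi : i ∈ S0
    · rw [Set.indicator_of_mem hi]
    · rw [Set.indicator_of_notMem hi, sg_apply, Finset.sum_apply]
      apply Finset.sum_eq_zero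
      intro u _
      by_contra h
      exact hi ((hd u).1 i h).1

theorem exists_pi [NeZero N] (k : ℕ)
    (hk : ∀ i ∈ S0, ∀ u : Finset C, (∀ c ∈ u, i ∈ S c) → u.card ≤ k) :
    ∃ π : Set C → ((I → ZMod N) →+ (I → ZMod N)),
      (∀ Y f i, π Y f i ≠ 0 → i ∈ S0) ∧
      (∀ Y f c, (∀ i ∈ S0, f i ≠ 0 → i ∈ S c) → ∀ i, π Y f i ≠ 0 → i ∈ S c ∧ c ∈ Y) ∧
      (∀ Y Y' f, π Y (π Y' f) = π (Y ∩ Y') f) ∧
      (∀ f, ∃ t : Finset C, ∀ Y : Set C, ↑t ⊆ Y → π Y f = S0.indicator f) := by
  classical
  obtain ⟨z, h1, h2, h3, _, h5⟩ := exists_dec N S0 S k hk ⊤ (fun _ _ _ _ => trivial)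
    (fun _ _ _ => trivial)
  let π : Set C → ((I → ZMod N) →+ (I → ZMod N)) := fun Y =>
    sg.comp ((Finsupp.filterAddHom (fun u : Finset C => (↑u : Set C) ⊆ Y)).comp z)
  have hπ : ∀ Y f, π Y f = sg ((z f).filter (fun u : Finset C => (↑u : Set C) ⊆ Y)) :=
    fun Y f => rfl
  have hne : ∀ Y f i, π Y f i ≠ 0 → ∃ u : Finset C, (↑u : Set C) ⊆ Y ∧ z f u i ≠ 0 := by
    intro Y f i hi
    by_contra hcon
    push Not at hcon
    apply hi
    rw [hπ, sg_apply, Finset.sum_apply]
    apply Finset.sum_eq_zero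
    intro u _
    rw [Finsupp.filter_apply]
    split_ifs with h
    · exact hcon u h
    · rfl
  refine ⟨π, fun Y f i hi => ?_, fun Y f c hf i hi => ?_, fun Y Y' f => ?_, fun f => ?_⟩
  · obtain ⟨u, _, hu⟩ := hne Y f i hi
    exact (h1 f u i hu).1
  · obtain ⟨u, huY, hu⟩ := hne Y f i hi
    have hc : c ∈ u := h3 f c hf u (fun h => hu (by rw [h]; rfl))
    exact ⟨(h1 f u i hu).2 c hc, huY hc⟩
  · rw [hπ, hπ Y', h5, hπ]
    congr 1
    ext u i
    simp only [Finsupp.filter_apply, Set.subset_inter_iff]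
    by_cases ha : (↑u : Set C) ⊆ Y <;> by_cases hb : (↑u : Set C) ⊆ Y' <;> simp [ha, hb]
  · refine ⟨(z f).support.biUnion id, fun Y hY => ?_⟩
    rw [hπ, ← h2]
    congr 1
    ext u i
    rw [Finsupp.filter_apply]
    split_ifs with h
    · rfl
    · by_cases hu : u ∈ (z f).support
      · exfalso
        apply h
        intro c hc
        apply hY
        exact Finset.mem_coe.2 (Finset.mem_biUnion.2 ⟨u, hu, hc⟩)
      · rw [Finsupp.notMem_support_iff.1 hu]

theorem exists_ext [NeZero N] (k : ℕ)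
    (hk : ∀ i ∈ S0, ∀ u : Finset C, (∀ c ∈ u, i ∈ S c) → u.card ≤ k)
    (MI : Set I) (MC : Set C) (E : Submodule (ZMod N) (I → ZMod N)) (hE : PC N E)
    (hE0 : ∀ e ∈ E, ∀ i, e i ≠ 0 → i ∈ S0)
    (hI : ∀ e ∈ E, ∀ c ∈ MC, (S c).indicator e ∈ E)
    (hinj : ∀ e ∈ E, (∀ i ∈ MI, e i = 0) → e = 0)
    (hlink : ∀ i ∈ MI, i ∈ S0 → ∀ c, i ∈ S c → c ∈ MC) :
    ∃ x : (I → ZMod N) →+ (I → ZMod N),
      (∀ f i, x f i ≠ 0 → i ∈ S0) ∧
      (∀ f c, (∀ i ∈ S0, f i ≠ 0 → i ∈ S c) → ∀ i, x f i ≠ 0 → i ∈ S c) ∧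
      (∀ f, S0.indicator f ∈ E → x f = S0.indicator f) ∧
      (∀ f, (∀ i ∈ MI, f i = 0) → x f = 0) := by
  classical
  let res : (I → ZMod N) →ₗ[ZMod N] (I → ZMod N) :=
    { toFun := fun f => MI.indicator f
      map_add' := fun f g => Set.indicator_add' MI f g
      map_smul' := fun r f => by
        funext i
        by_cases h : i ∈ MI
        · simp [Set.indicator_of_mem h]
        · simp [Set.indicator_of_notMem h] }
  have hres : ∀ f, res f = MI.indicator f := fun f => rfl
  have hE' : PC N (E.map res) := by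
    rintro _ ⟨e, he, rfl⟩ φ h0
    refine ⟨_, hE e he φ h0, ?_⟩
    funext i
    rw [hres, hres]
    by_cases h : i ∈ MI
    · simp [Set.indicator_of_mem h]
    · simp [Set.indicator_of_notMem h, h0]
  have hI' : ∀ e ∈ E.map res, ∀ c, (S c).indicator e ∈ E.map res := by
    rintro _ ⟨e, he, rfl⟩ c
    by_cases hc : c ∈ MC
    · refine ⟨_, hI e he c hc, ?_⟩
      funext i
      rw [hres, hres]
      by_cases h : i ∈ MI <;> by_cases h' : i ∈ S c <;> simp [h, h']
    · have : (S c).indicator (res e) = 0 := by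
        funext i
        rw [hres]
        by_cases h : i ∈ MI
        · by_cases h' : i ∈ S c
          · rw [Set.indicator_of_mem h', Set.indicator_of_mem h]
            by_contra h2
            exact hc (hlink i h (hE0 e he i h2) c h')
          · simp [h']
        · by_cases h' : i ∈ S c <;> simp [h, h']
      rw [this]
      exact zero_mem _
  obtain ⟨z, h1, h2, h3, h4, h4'⟩ := exists_dec N (S0 ∩ MI) S k (fun i hi => hk i hi.1)
    (E.map res) hE' hI'
  have hr : ∀ u : Finset C, ∃ r : (MI → ZMod N) →ₗ[ZMod N] (I → ZMod N),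
      (∀ f, r f ∈ E ⊓ JJ N S0 S u) ∧ ∀ e ∈ E ⊓ JJ N S0 S u, r (fun h => e h.1) = e :=
    fun u => FCZ.FC.exists_retraction N _ (hE.inf N (JJ_PC N S0 S u)) MI
      (fun e he => hinj e he.1)
  choose r hr1 hr2 using hr
  let rs : (I → ZMod N) →+ (MI → ZMod N) :=
    { toFun := fun f h => f h.1
      map_zero' := rfl
      map_add' := fun _ _ => rfl }
  let x : (I → ZMod N) →+ (I → ZMod N) :=
    (Finsupp.liftAddHom (fun u => (r u).toAddMonoidHom.comp rs)).comp z
  have hx : ∀ f, x f = ∑ u ∈ (z f).support, r u (rs (z f u)) := fun f => rfl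
  have hne : ∀ f i, x f i ≠ 0 → ∃ u, z f u ≠ 0 ∧ r u (rs (z f u)) i ≠ 0 := by
    intro f i hi
    by_contra hcon
    push Not at hcon
    apply hi
    rw [hx, Finset.sum_apply]
    exact Finset.sum_eq_zero (fun u hu => hcon u (Finsupp.mem_support_iff.1 hu))
  refine ⟨x, fun f i hi => ?_, fun f c hf i hi => ?_, fun f hf => ?_, fun f hf => ?_⟩
  · obtain ⟨u, _, hu⟩ := hne f i hi
    exact ((hr1 u _).2 i hu).1
  · obtain ⟨u, hu0, hu⟩ := hne f i hi
    have hc : c ∈ u := h3 f c (fun i hi => hf i hi.1) u hu0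
    exact ((hr1 u _).2 i hu).2 c hc
  · have h5 : (S0 ∩ MI).indicator f ∈ E.map res := by
      refine ⟨_, hf, ?_⟩
      rw [hres, Set.indicator_indicator, Set.inter_comm]
    have h6 : ∀ u, ∀ i ∈ MI, r u (rs (z f u)) i = z f u i := by
      intro u i hi
      obtain ⟨g, hg, hgz⟩ := h4 f h5 u
      have hgM : ∀ j ∈ MI, g j = z f u j := by
        intro j hj
        rw [← hgz, hres, Set.indicator_of_mem hj]
      have hgJ : g ∈ JJ N S0 S u := by
        intro j hj
        refine ⟨hE0 g hg j hj, fun c hc => ?_⟩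
        by_cases hcM : c ∈ MC
        · have h7 : g - (S c).indicator g = 0 := by
            apply hinj _ (sub_mem hg (hI g hg c hcM))
            intro l hl
            rw [Pi.sub_apply]
            by_cases h8 : l ∈ S c
            · rw [Set.indicator_of_mem h8, sub_self]
            · rw [Set.indicator_of_notMem h8, sub_zero, hgM l hl]
              by_contra h9
              exact h8 ((h1 f u l h9).2 c hc)
          by_contra h8
          have h9 := congrFun h7 j
          rw [Pi.sub_apply, Set.indicator_of_notMem h8, sub_zero] at h9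
          exact hj h9
        · exfalso
          have h7 : g = 0 := by
            apply hinj _ hg
            intro l hl
            rw [hgM l hl]
            by_contra h9
            exact hcM (hlink l hl (h1 f u l h9).1.1 c ((h1 f u l h9).2 c hc))
          exact hj (by rw [h7]; rfl)
      have h7 : rs (z f u) = fun h : MI => g h.1 := by
        funext h
        exact (hgM h.1 h.2).symm
      rw [h7, hr2 u g ⟨hg, hgJ⟩, hgM i hi]
    have h8 : x f ∈ E := by
      rw [hx]
      exact Submodule.sum_mem _ (fun u _ => (hr1 u _).1)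
    rw [← sub_eq_zero]
    apply hinj _ (sub_mem h8 hf)
    intro i hi
    rw [Pi.sub_apply, hx, Finset.sum_apply, Finset.sum_congr rfl (fun u _ => h6 u i hi),
      ← Finset.sum_apply, ← sg_apply, h2]
    by_cases h : i ∈ S0
    · rw [Set.indicator_of_mem h, Set.indicator_of_mem (Set.mem_inter h hi), sub_self]
    · rw [Set.indicator_of_notMem h, Set.indicator_of_notMem (fun h' => h h'.1), sub_self]
  · have h5 : sg (z f) = 0 := by
      rw [h2]
      funext i
      by_cases h : i ∈ S0 ∩ MI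
      · rw [Set.indicator_of_mem h]; exact hf i h.2
      · rw [Set.indicator_of_notMem h]; rfl
    have h6 : ∀ u, z f u = 0 := by
      intro u
      have h7 := h4' f (fun _ => True)
      have h8 : (z f).filter (fun _ => True) = z f := by
        ext a b
        simp
      rw [h8, h5, map_zero] at h7
      rw [← h7]
      rfl
    rw [hx]
    apply Finset.sum_eq_zero
    intro u _
    rw [h6 u, map_zero, map_zero]

end level

end Pool.Agent.H54Z.FC
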